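import Pool.Agent.Helper69.BF.Ct

/-! The corner over a flat base of weight one satisfies the hypotheses of the flat theorem. -/

set_option autoImplicit false

namespace Pool.Agent.Helper69.BF

open Finset Filter Topology Pool.Agent.Helper69.RK Pool.Agent.Helper31.EC Pool.Agent.Helper60.CS
open Pool.Agent.Helper99.CC Pool.Agent.Helper40.NSK

noncomputable section

open Sp QS

variable {S : Sp}

namespace CT

variable {d : ℕ} (D : CT S d)

def qt : QS S := QS.mk D.t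
def qy (i : Fin d) : QS S := QS.mk (D.y i)
def qx (i : Fin d) : QS S := QS.mk (D.x i)
def qz : QS S := QS.mk D.z
def qv : QS S := QS.mk D.v
def qa (i : Fin d) : QS S := QS.mk (D.aT i)
def qb : QS S := QS.mk D.bT

/-- the label -/
def κ : S.L := cl D.V
/-- the line -/
def iA : S.L := vd D.qa 1 ⊔ vd D.qx 1 ⊔ (dg D.qb 1 ⊔ dg D.qv 1)
/-- digits of the base line -/
def iLr (r : ℝ) : S.L := vd D.qa r ⊔ vd D.qx r
/-- digits of the base point -/
def iMr (r : ℝ) : S.L := dg D.qt r ⊔ vd D.qy r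

theorem qy_eq (i : Fin d) : D.qy i = D.qa i + D.qt * D.qx i := by
  show QS.mk (D.y i) = QS.mk (D.aT i) + QS.mk D.t * QS.mk (D.x i)
  rw [← map_mul, ← map_add]
  congr 1
  unfold aT
  ring

theorem qz_eq : D.qz = D.qb + D.qt * D.qv := by
  show QS.mk D.z = QS.mk D.bT + QS.mk D.t * QS.mk D.v
  rw [← map_mul, ← map_add]
  congr 1
  unfold bT
  ring

theorem iMr_le (r : ℝ) (hr : r ≤ 1) : D.iMr r ≤ D.iLr r ⊔ dg D.qt 1 := by
  have h1 : dg D.qt r ≤ dg D.qt 1 := dg_mono _ hr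
  refine sup_le (h1.trans le_sup_right) ?_
  rw [vd_le]
  intro i
  rw [D.qy_eq]
  have h2 : dg D.qt r ≤ D.iLr r ⊔ dg D.qt 1 := h1.trans le_sup_right
  have h3 : dg (D.qa i) r ≤ D.iLr r ⊔ dg D.qt 1 := ((dg_le_vd D.qa r i).trans le_sup_left).trans le_sup_left
  have h4 : dg (D.qx i) r ≤ D.iLr r ⊔ dg D.qt 1 := ((dg_le_vd D.qx r i).trans le_sup_right).trans le_sup_left
  exact (Kn S r hr _).add_mem h3 ((Kn S r hr _).mul_mem h2 h4)

theorem iLr_mono {r r' : ℝ} (h : r ≤ r') : D.iLr r ≤ D.iLr r' := sup_le_sup (vd_mono _ h) (vd_mono _ h)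

theorem iLr_le (r : ℝ) (hr : r ≤ 1) : D.iLr r ≤ D.iA := (D.iLr_mono hr).trans le_sup_left

theorem b_le : dg D.qb 1 ⊔ dg D.qv 1 ≤ D.iA := le_sup_right

/-- hypotheses -/
structure Hyp (s g ρ : ℝ) : Prop extends D.Lt s where
  hρ : 0 < ρ
  time : 1 ≤ h (dg D.qt 1) D.iA
  leakA : I D.κ (dg D.qt 1) (D.iA ⊔ dg D.qt s) = 0
  T1 : I (vd D.qx 1) (D.κ ⊔ (D.iMr 1 ⊔ dg D.qz 1)) ⊥ = 0
  full : (d + 1) * (1 - s) ≤ h (D.iMr 1) D.κ
  hz : dg D.qz g ≤ D.κ ⊔ D.iMr g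
  uns : ∀ (T : Sp) (p : Pj T S) (E : ∀ k, (T.F k).Ω → Prop) (hE : 0 < ul (T.pr E)) (a b : ℝ), 0 ≤ a → a ≤ b →
    b ≤ g + s → h (restL E hE (p.map (dg D.qz b))) (restL E hE (p.map (dg D.qz a ⊔ D.iMr b))) ≤ (1 - ρ) * (b - a)

variable {D} {s g ρ : ℝ}

theorem κ_t (hs : s ≤ 1) (hl : D.Lt s) : dg D.qt s ≤ D.κ := by
  show dg (QS.mk D.t) s ≤ cl D.V
  rw [dg_mk _ hs]
  apply TR.dg_le_cl _ _ _ _ hl.ft (fun k => 2 * D.L k) ((S.Sub_const zero_le_two).mul D.hL)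
  filter_upwards [hl.lt] with k hk ω ω' a b e e' q q'
  have h1 := hk ω ω' a b ⟨q', q⟩
  have e1 : |TR.ev D.t k ω - D.t0.1 k ω| ≤ D.L k * S.dl s k := e
  have e2 : |TR.ev D.t k ω' - D.t0.1 k ω'| ≤ D.L k * S.dl s k := e'
  rw [h1] at e1
  have h2 : TR.ev D.t k ω - TR.ev D.t k ω' = (TR.ev D.t k ω - D.t0.1 k ω') - (TR.ev D.t k ω' - D.t0.1 k ω') := by ring
  rw [h2]
  refine (abs_sub _ _).trans ?_
  linarith

/-- the time is free given the line and the label -/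
theorem Hyp.tA (hs : Scs s g) (hh : D.Hyp s g ρ) : 1 - s ≤ h (dg D.qt 1) (D.iA ⊔ D.κ) := by
  have hs1 : s ≤ 1 := by linarith [hs.e0]
  have h1 : h (dg D.qt 1) (D.iA ⊔ D.κ) = h (dg D.qt 1) (D.iA ⊔ dg D.qt s) := by
    have h2 := hh.leakA
    rw [I_zero_iff_h'] at h2
    rw [← h2]
    congr 1
    apply le_antisymm
    · exact sup_le (le_sup_left.trans le_sup_right) le_sup_left
    · have := κ_t hs1 hh.toLt
      exact sup_le le_sup_right (sup_le le_sup_left (this.trans le_sup_right))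
  rw [h1]
  have h3 := h_chain (dg D.qt s) (dg D.qt 1) D.iA
  have h4 : dg D.qt s ⊔ dg D.qt 1 = dg D.qt 1 := sup_eq_right.mpr (dg_mono _ hs1)
  rw [h4, sup_comm] at h3
  have h5 : h (dg D.qt s) D.iA ≤ s := (h_le_H _ _).trans (H_dg_le _ hs.s0.le)
  linarith [hh.time]

/-- the time is full given the label only -/
theorem Hyp.tk (hs : Scs s g) (hh : D.Hyp s g ρ) (X : S.L) : h (dg D.qt 1) (X ⊔ D.κ) ≤ 1 - s := by
  have hs1 : s ≤ 1 := by linarith [hs.e0]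
  refine (h_anti ((κ_t hs1 hh.toLt).trans le_sup_right)).trans ?_
  exact h_dg_dg _ hs1

theorem Hyp.indA (hs : Scs s g) (hh : D.Hyp s g ρ) (X : S.L) (hX : X ≤ D.iA) : I D.iA (dg D.qt 1) (X ⊔ D.κ) = 0 := by
  apply le_antisymm _ (I_nonneg _ _ _)
  rw [I_eq']
  have h1 := hh.tk hs X
  have h2 := hh.tA hs
  have h3 : D.iA ⊔ (X ⊔ D.κ) = D.iA ⊔ D.κ := by
    rw [← sup_assoc, sup_eq_left.mpr hX]
  rw [h3]
  linarith

/-- THE SLOPE: up to level `g` it is known to the base line up to level `g` and the label -/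
theorem Hyp.slope (hs : Scs s g) (hh : D.Hyp s g ρ) : dg D.qv g ≤ D.iLr g ⊔ D.κ := by
  have hg1 : g ≤ 1 := by linarith [hs.hs, hs.s0]
  have hLg := D.iLr_le g hg1
  have t1 : ∀ X : S.L, X ≤ D.iA → h (dg D.qt 1) X = 1 := fun X hX =>
    le_antisymm (h_dg_le_one _ _) (hh.time.trans (h_anti hX))
  have h1 : dg D.qv g ≤ D.iLr g ⊔ (dg D.qt g ⊔ dg D.qz g) := by
    refine slope_known hh.hρ hs.g0 hg1 D.qz_eq ?_ ?_ ?_
    · have h3 := h_chain (dg D.qt g) (dg D.qt 1) (D.iLr g)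
      have h4 : dg D.qt g ⊔ dg D.qt 1 = dg D.qt 1 := sup_eq_right.mpr (dg_mono _ hg1)
      rw [h4, t1 _ hLg] at h3
      have h5 : h (dg D.qt 1) (dg D.qt g ⊔ D.iLr g) ≤ 1 - g := (h_anti le_sup_left).trans (h_dg_dg _ hg1)
      linarith
    · apply le_antisymm _ (I_nonneg _ _ _)
      rw [I_eq', t1 _ hLg, t1]
      · simp
      · have h2 := D.b_le
        exact sup_le ((sup_le_sup (dg_mono _ hg1) (dg_mono _ hg1)).trans h2) hLg
    · intro T p E hE a b ha hab hb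
      refine (h_anti ?_).trans (hh.uns T p E hE a b ha hab (by linarith [hs.s0]))
      apply restL_mono E hE
      apply p.map_mono
      refine sup_le_sup_left ((D.iMr_le b (hb.trans hg1)).trans ?_) _
      exact sup_le_sup_right (D.iLr_mono hb) _
  have h2 : dg D.qv g ≤ dg D.qt 1 ⊔ (D.iLr g ⊔ D.κ) := by
    have h3 := hh.hz
    have h4 := D.iMr_le g hg1
    have h5 : dg D.qt g ≤ dg D.qt 1 := dg_mono _ hg1
    order
  have h3 : dg D.qv g ≤ D.iA ⊔ (D.iLr g ⊔ D.κ) :=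
    ((dg_mono _ hg1).trans (le_sup_right.trans D.b_le)).trans le_sup_left
  exact le_of_markov h3 h2 (hh.indA hs _ hLg)

/-! ### the corner -/

section cor


variable (hs : Scs s g) (hh : D.Hyp s g ρ)
include hh


omit hh in
theorem c_y (i : Fin d) : (Pool.Agent.Helper99.LF.fc (D.trz hs)).y i = QS.mk (D.cy hs i) := by
  have h1 := Pool.Agent.Helper99.LF.fc_q (D.trz hs) i.succ
  rw [D.trz_q] at h1
  exact h1

omit hh in
theorem c_z : (Pool.Agent.Helper99.LF.fc (D.trz hs)).z = QS.mk (D.cz hs) := by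
  rw [Pool.Agent.Helper99.LF.fc_z, D.trz_z]

theorem dt1 : dg (Pool.Agent.Helper99.LF.fc (D.trz hs)).t 1 = chgL D.V.1 (1 - s) hs.e0 (dg D.qt 1) := by
  show dg (QS.mk (D.ct hs)) 1 = _
  rw [dg_mk _ le_rfl, ct_dg hs hh.toLt]
  have e : s + (1 - s) * 1 = 1 := by ring
  rw [e]
  show _ = chgL D.V.1 (1 - s) hs.e0 (dg (QS.mk D.t) 1)
  rw [dg_mk _ le_rfl]

theorem dy1 : vd (Pool.Agent.Helper99.LF.fc (D.trz hs)).y 1 = chgL D.V.1 (1 - s) hs.e0 (vd D.qy 1) := by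
  have h1 : ∀ i, dg ((Pool.Agent.Helper99.LF.fc (D.trz hs)).y i) 1 = chgL D.V.1 (1 - s) hs.e0 (dg (D.qy i) 1) := by
    intro i
    rw [c_y, dg_mk _ le_rfl, cy_dg hs hh.toLt]
    have e : s + (1 - s) * 1 = 1 := by ring
    rw [e]
    show _ = chgL D.V.1 (1 - s) hs.e0 (dg (QS.mk (D.y i)) 1)
    rw [dg_mk _ le_rfl]
  apply le_antisymm
  · rw [vd_le]
    intro i
    rw [h1]
    exact chgL_mono _ _ _ (dg_le_vd _ _ _)
  · unfold vd
    rw [show chgL D.V.1 (1 - s) hs.e0 (Finset.univ.sup fun i => dg (D.qy i) 1) = Finset.univ.sup fun i => chgL D.V.1 (1 - s) hs.e0 (dg (D.qy i) 1) from ?_]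
    · apply Finset.sup_le
      intro i _
      rw [← h1]
      exact Finset.le_sup (f := fun i => dg ((Pool.Agent.Helper99.LF.fc (D.trz hs)).y i) 1) (Finset.mem_univ i)
    · have : ∀ A : Finset (Fin d), chgL D.V.1 (1 - s) hs.e0 (A.sup fun i => dg (D.qy i) 1) = A.sup fun i => chgL D.V.1 (1 - s) hs.e0 (dg (D.qy i) 1) := by
        intro A
        classical
        induction A using Finset.induction_on with
        | empty => exact chgL_bot _ _ _
        | insert a A _ ih => rw [Finset.sup_insert, Finset.sup_insert, chgL_sup, ih]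
      exact this _

omit hh in
theorem dx1 (i : Fin d) : dg ((Pool.Agent.Helper99.LF.fc (D.trz hs)).x i) 1 = chgL D.V.1 (1 - s) hs.e0 (dg (D.qx i) (1 - s)) := by
  show dg (QS.mk (D.cx hs i)) 1 = _
  rw [dg_mk _ le_rfl, cx_dg, mul_one]
  show _ = chgL D.V.1 (1 - s) hs.e0 (dg (QS.mk (D.x i)) (1 - s))
  rw [dg_mk _ hs.e1]

omit hh in
theorem dx_le : vd (Pool.Agent.Helper99.LF.fc (D.trz hs)).x 1 ≤ chgL D.V.1 (1 - s) hs.e0 (vd D.qx 1) := by
  rw [vd_le]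
  intro i
  rw [dx1]
  exact chgL_mono _ _ _ ((dg_mono _ hs.e1).trans (dg_le_vd _ _ _))

omit hh in
theorem dzu {u : ℝ} (hu : u ≤ 1) : dg (Pool.Agent.Helper99.LF.fc (D.trz hs)).z u = chgL D.V.1 (1 - s) hs.e0 (dg D.qz ((1 - s) * u - (1 - 2 * s - g))) := by
  rw [c_z, dg_mk _ hu, cz_dg]
  have h1 : (1 - s) * u - (1 - 2 * s - g) ≤ 1 := by
    have h2 : (1 - s) * u ≤ (1 - s) * 1 := mul_le_mul_of_nonneg_left hu hs.e0.le
    linarith [hs.hs, hs.s0]
  show _ = chgL D.V.1 (1 - s) hs.e0 (dg (QS.mk D.z) _)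
  rw [dg_mk _ h1]

omit hh in
theorem dv1 : dg ((Pool.Agent.Helper99.LF.fc (D.trz hs)).C 0) 1 = chgL D.V.1 (1 - s) hs.e0 (dg D.qv g) := by
  show dg (QS.mk (D.cv hs)) 1 = _
  rw [dg_mk _ le_rfl, cv_dg]
  have e : (1 - s) * 1 - (1 - s - g) = g := by ring
  have hg1 : g ≤ 1 := by linarith [hs.hs, hs.s0]
  rw [e]
  show _ = chgL D.V.1 (1 - s) hs.e0 (dg (QS.mk D.v) g)
  rw [dg_mk _ hg1]

theorem iA_le : (Pool.Agent.Helper99.LF.fc (D.trz hs)).iA ≤ chgL D.V.1 (1 - s) hs.e0 D.iA := by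
  have hx : vd (Pool.Agent.Helper99.LF.fc (D.trz hs)).x 1 ≤ chgL D.V.1 (1 - s) hs.e0 D.iA := (dx_le hs).trans (chgL_mono _ _ _ (le_sup_right.trans le_sup_left))
  have ha : vd (Pool.Agent.Helper99.LF.fc (D.trz hs)).a 1 ≤ chgL D.V.1 (1 - s) hs.e0 D.iA := by
    rw [vd_le]
    intro i
    show dg (QS.mk (D.cy hs i - D.ct hs * D.cx hs i)) 1 ≤ _
    rw [dg_mk _ le_rfl]
    refine (ca_dg_le hs hh.toLt i).trans (chgL_mono _ _ _ (sup_le ?_ ?_))
    · rw [← dg_mk _ le_rfl]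
      exact (dg_le_vd D.qa 1 i).trans (le_sup_left.trans le_sup_left)
    · rw [← dg_mk _ le_rfl]
      exact (dg_le_vd D.qx 1 i).trans (le_sup_right.trans le_sup_left)
  have hb : dg (Pool.Agent.Helper99.LF.fc (D.trz hs)).b 1 ≤ chgL D.V.1 (1 - s) hs.e0 D.iA := by
    show dg (QS.mk (D.cz hs - D.cv hs * D.ct hs)) 1 ≤ _
    rw [dg_mk _ le_rfl]
    refine (cb_dg_le hs hh.toLt).trans (chgL_mono _ _ _ (sup_le ?_ ?_))
    · rw [← dg_mk _ le_rfl]
      exact le_sup_left.trans D.b_le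
    · rw [← dg_mk _ le_rfl]
      exact le_sup_right.trans D.b_le
  have hv : (Pool.Agent.Helper99.LF.fc (D.trz hs)).iF ≤ chgL D.V.1 (1 - s) hs.e0 D.iA := by
    show vd (Pool.Agent.Helper99.LF.fc (D.trz hs)).C 1 ≤ _
    rw [vd_le]
    intro j
    rw [Fin.fin_one_eq_zero j, dv1]
    have hg1 : g ≤ 1 := by linarith [hs.hs, hs.s0]
    exact chgL_mono _ _ _ ((dg_mono _ hg1).trans (le_sup_right.trans D.b_le))
  exact sup_le (sup_le ha hx) (sup_le hb hv)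

theorem c_ht : 1 ≤ h (dg (Pool.Agent.Helper99.LF.fc (D.trz hs)).t 1) (Pool.Agent.Helper99.LF.fc (D.trz hs)).iA := by
  refine le_trans ?_ (h_anti (iA_le hs hh))
  rw [dt1 hs hh, h_chgL_inf, le_div_iff₀ hs.e0, one_mul]
  exact hh.tA hs

theorem c_hF : h (Pool.Agent.Helper99.LF.fc (D.trz hs)).iF (Pool.Agent.Helper99.LF.fc (D.trz hs)).iL = 0 := by
  rw [h_eq_zero_iff]
  show vd (Pool.Agent.Helper99.LF.fc (D.trz hs)).C 1 ≤ _
  rw [vd_le]
  intro j
  rw [Fin.fin_one_eq_zero j, dv1]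
  have hg : g ≤ 1 - s := by linarith [hs.hs, hs.s0]
  have hx : ∀ i, chgL D.V.1 (1 - s) hs.e0 (dg (D.qx i) g) ≤ (Pool.Agent.Helper99.LF.fc (D.trz hs)).iL := by
    intro i
    have h1 : chgL D.V.1 (1 - s) hs.e0 (dg (D.qx i) g) ≤ dg ((Pool.Agent.Helper99.LF.fc (D.trz hs)).x i) 1 := by
      rw [dx1]
      exact chgL_mono _ _ _ (dg_mono _ hg)
    exact h1.trans ((dg_le_vd (Pool.Agent.Helper99.LF.fc (D.trz hs)).x 1 i).trans le_sup_right)
  have ha : ∀ i, chgL D.V.1 (1 - s) hs.e0 (dg (D.qa i) g) ≤ (Pool.Agent.Helper99.LF.fc (D.trz hs)).iL := by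
    intro i
    have h1 : chgL D.V.1 (1 - s) hs.e0 (dg (D.qa i) g) ≤ dg ((Pool.Agent.Helper99.LF.fc (D.trz hs)).a i) 1 ⊔ dg ((Pool.Agent.Helper99.LF.fc (D.trz hs)).x i) 1 := by
      show chgL D.V.1 (1 - s) hs.e0 (dg (QS.mk (D.aT i)) g) ≤ dg (QS.mk (D.cy hs i - D.ct hs * D.cx hs i)) 1 ⊔ dg (QS.mk (D.cx hs i)) 1
      rw [dg_mk _ (hg.trans hs.e1), dg_mk _ le_rfl, dg_mk _ le_rfl]
      exact a_dg_le hs hh.toLt i hg
    exact h1.trans (sup_le ((dg_le_vd (Pool.Agent.Helper99.LF.fc (D.trz hs)).a 1 i).trans le_sup_left) ((dg_le_vd (Pool.Agent.Helper99.LF.fc (D.trz hs)).x 1 i).trans le_sup_right))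
  have hsup : ∀ (f : Fin d → QS S), (∀ i, chgL D.V.1 (1 - s) hs.e0 (dg (f i) g) ≤ (Pool.Agent.Helper99.LF.fc (D.trz hs)).iL) → chgL D.V.1 (1 - s) hs.e0 (vd f g) ≤ (Pool.Agent.Helper99.LF.fc (D.trz hs)).iL := by
    intro f hf
    have : ∀ A : Finset (Fin d), chgL D.V.1 (1 - s) hs.e0 (A.sup fun i => dg (f i) g) ≤ (Pool.Agent.Helper99.LF.fc (D.trz hs)).iL := by
      intro A
      classical
      induction A using Finset.induction_on with
      | empty =>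
        rw [Finset.sup_empty, chgL_bot]
        exact bot_le
      | insert a A _ ih =>
        rw [Finset.sup_insert, chgL_sup]
        exact sup_le (hf a) ih
    exact this _
  refine (chgL_mono _ _ _ (hh.slope hs)).trans ?_
  rw [chgL_sup]
  refine sup_le ?_ ?_
  · unfold iLr
    rw [chgL_sup]
    exact sup_le (hsup _ ha) (hsup _ hx)
  · show chgL D.V.1 (1 - s) hs.e0 (cl D.V) ≤ _
    rw [chgL_base]
    exact bot_le

theorem c_hi : I (Pool.Agent.Helper99.LF.fc (D.trz hs)).iX (vd (Pool.Agent.Helper99.LF.fc (D.trz hs)).y 1 ⊔ dg (Pool.Agent.Helper99.LF.fc (D.trz hs)).z 1) (dg (Pool.Agent.Helper99.LF.fc (D.trz hs)).t 1) = 0 := by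
  have h1 : I (chgL D.V.1 (1 - s) hs.e0 (vd D.qx 1)) (chgL D.V.1 (1 - s) hs.e0 (vd D.qy 1) ⊔ chgL D.V.1 (1 - s) hs.e0 (dg D.qz 1)) (chgL D.V.1 (1 - s) hs.e0 (dg D.qt 1)) = 0 := by
    rw [← chgL_sup, I_chgL_inf]
    have h2 := hh.T1
    have h3 : I (vd D.qx 1) (vd D.qy 1 ⊔ dg D.qz 1) (dg D.qt 1 ⊔ D.κ) = 0 := by
      have h4 : D.κ ⊔ (D.iMr 1 ⊔ dg D.qz 1) = (dg D.qt 1 ⊔ D.κ) ⊔ (vd D.qy 1 ⊔ dg D.qz 1) := by
        unfold iMr
        apply le_antisymm <;> order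
      rw [h4] at h2
      have h5 := (I_decomp h2).2
      rwa [sup_bot_eq] at h5
    show I (vd D.qx 1) (vd D.qy 1 ⊔ dg D.qz 1) (dg D.qt 1 ⊔ D.κ) / _ = 0
    rw [h3, zero_div]
  rw [dt1 hs hh, dy1 hs hh]
  refine I_zero_mono h1 ((dx_le hs).trans le_sup_left) ?_
  refine sup_le (le_sup_left.trans le_sup_left) ?_
  rw [dzu hs le_rfl]
  have h6 : (1 - s) * 1 - (1 - 2 * s - g) ≤ 1 := by linarith [hs.hs, hs.s0]
  exact (chgL_mono _ _ _ (dg_mono _ h6)).trans (le_sup_right.trans le_sup_left)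

theorem c_hy : (d : ℝ) ≤ h (vd (Pool.Agent.Helper99.LF.fc (D.trz hs)).y 1) (dg (Pool.Agent.Helper99.LF.fc (D.trz hs)).t 1) := by
  rw [dt1 hs hh, dy1 hs hh, h_chgL_inf, le_div_iff₀ hs.e0]
  have h1 := hh.full
  unfold iMr at h1
  rw [h_chain] at h1
  have h2 := hh.tk hs ⊥
  rw [bot_sup_eq] at h2
  have h3 : h (vd D.qy 1) (dg D.qt 1 ⊔ D.κ) = h (vd D.qy 1) (dg D.qt 1 ⊔ cl D.V) := rfl
  rw [← h3]
  nlinarith

theorem rho_le (hs : Scs s g) : ρ ≤ 1 := by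
  have ht : Typ (S := S) (fun _ _ => True) := Typ_true
  have h1 := hh.uns S (Pj.id S) (fun _ _ => True) (ul_pr_typ_pos _ ht) 0 (g + s) le_rfl
    (by linarith [hs.g0, hs.s0]) le_rfl
  have h2 := h_nonneg (restL (fun _ _ => True) (ul_pr_typ_pos _ ht) ((Pj.id S).map (dg D.qz (g + s))))
    (restL (fun _ _ => True) (ul_pr_typ_pos _ ht) ((Pj.id S).map (dg D.qz 0 ⊔ D.iMr (g + s))))
  have h3 : 0 < g + s := by linarith [hs.g0, hs.s0]
  have h4 := h2.trans h1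
  by_contra hc
  push Not at hc
  nlinarith

theorem c_un : UnE (Pool.Agent.Helper99.LF.fc (D.trz hs)).z (Pool.Agent.Helper99.LF.fc (D.trz hs)).iQ ρ 0 := by
  intro T p E hE _ a b ha hab hb
  have hρ1 := rho_le hh hs
  obtain ⟨a', ha'⟩ : ∃ a', a' = (1 - s) * a - (1 - 2 * s - g) := ⟨_, rfl⟩
  obtain ⟨b', hb'⟩ : ∃ b', b' = (1 - s) * b - (1 - 2 * s - g) := ⟨_, rfl⟩
  have hab' : a' ≤ b' := by
    rw [ha', hb']
    have := mul_le_mul_of_nonneg_left hab hs.e0.le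
    linarith
  have hbg : b' ≤ g + s := by
    rw [hb']
    have := mul_le_mul_of_nonneg_left hb hs.e0.le
    linarith
  have e1 : (Pool.Agent.Helper99.LF.fc (D.trz hs)).iQ = chgL D.V.1 (1 - s) hs.e0 (vd D.qy 1 ⊔ dg D.qt 1) := by
    rw [chgL_sup, ← dy1 hs hh, ← dt1 hs hh]
    rfl
  rw [dzu hs hb, dzu hs (hab.trans hb), ← ha', ← hb', e1, ← chgL_sup, un_h, add_zero]
  rw [div_le_iff₀ hs.e0]
  have key : h (restL (S := unS p) E hE ((unP p).map (dg D.qz b')))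
      (restL (S := unS p) E hE ((unP p).map (dg D.qz a' ⊔ (vd D.qy 1 ⊔ dg D.qt 1) ⊔ cl D.V))) ≤
      (1 - ρ) * (b' - a') := by
    rcases le_total b' 0 with h0 | h0
    · rw [dg_nonpos _ h0, Pj.map_bot, restL_bot]
      rw [h_zero bot_le]
      exact mul_nonneg (by linarith) (by linarith)
    · have h1 : dg D.qz a' = dg D.qz (max a' 0) := by
        rcases le_total a' 0 with h2 | h2
        · rw [max_eq_right h2, dg_nonpos _ h2, dg_nonpos _ le_rfl]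
        · rw [max_eq_left h2]
      rw [h1]
      have h3 := hh.uns (unS p) (unP p) E hE (max a' 0) b' (le_max_right _ _) (max_le hab' h0) hbg
      have hb1 : b' ≤ 1 := by linarith [hs.hs, hs.s0]
      refine (h_anti ?_).trans (h3.trans ?_)
      · apply restL_mono (S := unS p) E hE
        apply (unP p).map_mono
        have h4 : D.iMr b' ≤ vd D.qy 1 ⊔ dg D.qt 1 :=
          sup_le ((dg_mono _ hb1).trans le_sup_right) ((vd_mono _ hb1).trans le_sup_left)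
        order
      · apply mul_le_mul_of_nonneg_left _ (by linarith)
        linarith [le_max_left a' 0]
  refine key.trans (le_of_eq ?_)
  rw [ha', hb']
  ring

/-- THE CORNER IS A FLAT CORNER -/
theorem corH {N : ℕ} (hst : ∃ w : QS.CQ (D.sp hs) (Pool.Agent.Helper99.LF.fc (D.trz hs)).fB N, ∀ e : Fin (d + 1) → Fin (N + 1), Function.Injective e →
    IsUnit (Matrix.of fun i j => (w.p (e i)).qs ((Pool.Agent.Helper99.LF.fc (D.trz hs)).v j)).det) : CorH (Pool.Agent.Helper99.LF.fc (D.trz hs)) N ρ 0 where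
  ht := by
    rw [sub_zero]
    exact c_ht hs hh
  hF := (c_hF hs hh).le
  hi := (c_hi hs hh).le
  hy := by
    rw [sub_zero]
    exact c_hy hs hh
  un := c_un hs hh
  st := by
    obtain ⟨w, hw⟩ := hst
    refine ⟨w, fun e he δ hδ => ?_⟩
    have h1 := hw e he
    have h2 := isUnit_iff.mp h1
    have h3 := h2.levels (half_pos hδ)
    have h4 : Typ (S := w.W) (fun k ω => ¬ |TR.ev (rep (Matrix.of fun i j => (w.p (e i)).qs ((Pool.Agent.Helper99.LF.fc (D.trz hs)).v j)).det) k ω| ≤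
        w.W.dl δ k) := by
      have hn : ∀ᶠ k in UF, w.W.dl δ k < w.W.dl (δ / 2) k := by
        refine Eventually.of_forall fun k => ?_
        unfold Sp.dl
        apply Real.rpow_lt_rpow_of_exponent_lt one_lt_two
        have := (w.W.F k).pos
        nlinarith
      refine h3.mono ?_
      filter_upwards [hn] with k hk ω _ h5 h6
      linarith
    have h5 : ul (w.W.pr fun k ω => |TR.ev (rep (Matrix.of fun i j => (w.p (e i)).qs ((Pool.Agent.Helper99.LF.fc (D.trz hs)).v j)).det) k ω| ≤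
        w.W.dl δ k) = 0 := by
      have h6 := ul_pr_compl (S := w.W) (fun k ω =>
        |TR.ev (rep (Matrix.of fun i j => (w.p (e i)).qs ((Pool.Agent.Helper99.LF.fc (D.trz hs)).v j)).det) k ω| ≤ w.W.dl δ k)
      rw [ul_pr_typ _ h4] at h6
      linarith
    exact h5.le

end cor

end CT

end

end Pool.Agent.Helper69.BF
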