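import Pool.Agent.Helper69.BF.Exl
import Pool.Agent.Helper69.BF.Cor

/-! Transfer between a space and the space with changed base and depth: functions, ideals, literal functions, events. -/

set_option autoImplicit false

namespace Pool.Agent.Helper69.BF

open Finset Filter Topology Pool.Agent.Helper69.RK Pool.Agent.Helper31.EC Pool.Agent.Helper82.TP
open Pool.Agent.Helper60.CS Pool.Agent.Helper25.EC
open Pool.Agent.Helper57.TA (sc scT ev_scT mem_Id_iff sc_mul_mem_iff)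

noncomputable section

open Sp QS

variable {S : Sp} (Z : ∀ k, Setoid (S.F k).Ω) (e : ℝ) (he : 0 < e)

theorem sub_chg {K : ℕ → ℝ} (hK : (S.chg Z e he).Sub K) : S.Sub K := by
  refine ⟨hK.1, ?_⟩
  have h1 := hK.2.const_mul e
  rw [mul_zero] at h1
  refine h1.congr fun k => ?_
  show e * (Real.logb 2 (K k + 2) / (e * (S.F k).n)) = Real.logb 2 (K k + 2) / (S.F k).n
  have := (S.F k).pos
  field_simp

/-- tame functions of the changed space, back -/
def trb (f : TR (S.chg Z e he)) : TR S := ⟨f.1, by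
  obtain ⟨K, hK, h⟩ := f.2
  exact ⟨K, sub_chg Z e he hK, h⟩⟩

theorem trc_trb (f : TR (S.chg Z e he)) : trc Z e he (trb Z e he f) = f := rfl

theorem ag_chg {f g : TR S} {r : ℝ} : TR.Ag r (trc Z e he f) (trc Z e he g) ↔ TR.Ag (e * r) f g := by
  constructor
  · rintro ⟨E, K, hE, hK, hh⟩
    refine ⟨E, K, hE, sub_chg Z e he hK, ?_⟩
    filter_upwards [hh] with k hk ω a b
    have h1 := hk ω a b
    rw [chg_dl] at h1
    exact h1
  · rintro ⟨E, K, hE, hK, hh⟩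
    refine ⟨E, K, hE, chg_sub Z e he hK, ?_⟩
    filter_upwards [hh] with k hk ω a b
    have h1 := hk ω a b
    rw [chg_dl]
    exact h1

theorem cgh_surj (he1 : e ≤ 1) (f : QS (S.chg Z e he)) : ∃ g : TR S, cgh Z e he he1 (QS.mk g) = f := by
  obtain ⟨f, rfl⟩ := mk_surj f
  exact ⟨trb Z e he f, rfl⟩

theorem cgh_mem (he1 : e ≤ 1) (f : QS S) {r : ℝ} (hr : r ≤ 1) : cgh Z e he he1 f ∈ Id (S.chg Z e he) r ↔
    f ∈ Id S (e * r) := by
  obtain ⟨f, rfl⟩ := mk_surj f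
  have h1 : e * r ≤ 1 := by nlinarith
  rw [cgh_mk, mk_mem_Id hr, mk_mem_Id h1, ← ag_chg Z e he]
  rfl

theorem cgh_eq (he1 : e ≤ 1) {f g : QS S} (h : cgh Z e he he1 f = cgh Z e he he1 g) : f - g ∈ Id S e := by
  have h1 : cgh Z e he he1 (f - g) ∈ Id (S.chg Z e he) 1 := by
    rw [map_sub, h, sub_self]
    exact (Id _ 1).zero_mem
  rw [cgh_mem Z e he he1 _ le_rfl, mul_one] at h1
  exact h1

theorem cgh_eq' (he1 : e ≤ 1) {f g : QS S} (h : f - g ∈ Id S e) : cgh Z e he he1 f = cgh Z e he he1 g := by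
  have h1 : cgh Z e he he1 (f - g) ∈ Id (S.chg Z e he) 1 := by
    rw [cgh_mem Z e he he1 _ le_rfl, mul_one]
    exact h
  rwa [QS.mem_Id_one, map_sub, sub_eq_zero] at h1

/-- literal functions in the changed space -/
theorem lit_cgh (he1 : e ≤ 1) {α : ℕ → Type} {V : ∀ k, (S.F k).Ω → α k} {f : QS S} (hf : Lit V f) :
    Lit (S := S.chg Z e he) V (cgh Z e he he1 f) := by
  obtain ⟨g, rfl, hg⟩ := hf
  refine ⟨trc Z e he g, rfl, ?_⟩
  filter_upwards [hg] with k hk ω ω' a b c d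
  exact hk ω ω' a b c.2 d

theorem lit_cgh_back (he1 : e ≤ 1) {α β : ℕ → Type} {V' : ∀ k, (S.F k).Ω → α k} {V : ∀ k, (S.F k).Ω → β k}
    (h : ∀ᶠ k in UF, ∀ ω ω', (S.F k).μ ω ≠ 0 → (S.F k).μ ω' ≠ 0 → (S.F k).Z ω ω' → V k ω = V k ω' →
      Z k ω ω' ∧ V' k ω = V' k ω') {f : QS (S.chg Z e he)} (hf : Lit (S := S.chg Z e he) V' f) :
    ∃ g : QS S, Lit V g ∧ cgh Z e he he1 g = f := by
  obtain ⟨G, rfl, hG⟩ := hf
  refine ⟨QS.mk (trb Z e he G), ⟨trb Z e he G, rfl, ?_⟩, rfl⟩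
  filter_upwards [hG, h] with k h1 h2 ω ω' a b c d
  obtain ⟨h3, h4⟩ := h2 ω ω' a b c d
  exact h1 ω ω' a b ⟨h3, c⟩ h4

/-- the ideals on events -/
theorem cgh_rest (he1 : e ≤ 1) (E : ∀ k, (S.F k).Ω → Prop) (hE : 0 < ul (S.pr E)) (f : QS S) {r : ℝ} (hr : r ≤ 1) :
    QS.rest (S := S.chg Z e he) E hE (cgh Z e he he1 f) ∈ Id ((S.chg Z e he).rest E) r ↔
      QS.rest E hE f ∈ Id (S.rest E) (e * r) := by
  obtain ⟨f, rfl⟩ := mk_surj f
  have h1 : e * r ≤ 1 := by nlinarith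
  have e1 : QS.rest (S := S.chg Z e he) E hE (cgh Z e he he1 (QS.mk f)) =
      QS.mk (TR.rest (S := S.chg Z e he) E (trc Z e he f)) := rfl
  rw [e1, QS.rest_mk, mk_mem_Id hr, mk_mem_Id h1]
  constructor
  · rintro ⟨A, K, hA, hK, hh⟩
    refine ⟨A, K, hA, ?_, ?_⟩
    · refine ⟨hK.1, ?_⟩
      have h1 := hK.2.const_mul e
      rw [mul_zero] at h1
      refine h1.congr fun k => ?_
      show e * (Real.logb 2 (K k + 2) / (e * (S.F k).n)) = Real.logb 2 (K k + 2) / (S.F k).n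
      have := (S.F k).pos
      field_simp
    · filter_upwards [hh] with k hk ω a b
      refine (hk ω a b).trans (le_of_eq ?_)
      congr 1
      exact chg_dl Z e he r k
  · rintro ⟨A, K, hA, hK, hh⟩
    refine ⟨A, K, hA, ?_, ?_⟩
    · refine ⟨hK.1, ?_⟩
      have h1 := hK.2.const_mul e⁻¹
      rw [mul_zero] at h1
      refine h1.congr fun k => ?_
      show e⁻¹ * (Real.logb 2 (K k + 2) / (S.F k).n) = Real.logb 2 (K k + 2) / (e * (S.F k).n)
      have := (S.F k).pos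
      field_simp
    · filter_upwards [hh] with k hk ω a b
      refine (hk ω a b).trans (le_of_eq ?_)
      congr 1
      exact (chg_dl Z e he r k).symm

end

noncomputable section

open Sp

variable {S : Sp} (V : S.Inf) {e : ℝ} {he : 0 < e} (E : ∀ k, (S.F k).Ω → Prop) (hE : 0 < ul (S.pr E))

theorem rest_rt (A B : ∀ k, Setoid (S.F k).Ω) (k : ℕ) : ((S.chg V.1 e he).rest E).rt A B k =
    (S.rest E).rt A (fun k => B k ⊓ V.1 k) k / e := by
  have h1 : ((S.chg V.1 e he).rest E).rt A B k = ((S.F k).rest (E k)).e (A k) (B k ⊓ (V.1 k ⊓ (S.F k).Z)) /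
      (e * (S.F k).n) := rfl
  have h2 : (S.rest E).rt A (fun k => B k ⊓ V.1 k) k = ((S.F k).rest (E k)).e (A k) (B k ⊓ V.1 k ⊓ (S.F k).Z) /
    (S.F k).n := rfl
  have h4 : ((S.F k).rest (E k)).e (A k) (B k ⊓ (V.1 k ⊓ (S.F k).Z)) =
      ((S.F k).rest (E k)).e (A k) (B k ⊓ V.1 k ⊓ (S.F k).Z) :=
    congrArg (fun X : Setoid (S.F k).Ω => ((S.F k).rest (E k)).e (A k) X) (inf_assoc (B k) (V.1 k) (S.F k).Z).symm
  rw [h1, h2, div_div, mul_comm e, h4]

/-- rates over the changed base on events of the space -/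
theorem rest_chg_h (A B : S.L) :
    h (restL (S := S.chg V.1 e he) E hE (chgL V.1 e he A)) (restL (S := S.chg V.1 e he) E hE (chgL V.1 e he B)) =
      h (restL E hE A) (restL E hE (B ⊔ cl V)) / e := by
  induction A using cl_ind with | _ A
  induction B using cl_ind with | _ B
  obtain ⟨A', hA'⟩ : ∃ A' : ((S.chg V.1 e he).rest E).Inf, A' = Sp.restI (S := S.chg V.1 e he) E (chgI V.1 e he A) :=
    ⟨_, rfl⟩
  obtain ⟨B', hB'⟩ : ∃ B' : ((S.chg V.1 e he).rest E).Inf, B' = Sp.restI (S := S.chg V.1 e he) E (chgI V.1 e he B) :=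
    ⟨_, rfl⟩
  have e1 : restL (S := S.chg V.1 e he) E hE (chgL V.1 e he (cl A)) = Sp.cl A' := by rw [hA']; rfl
  have e2 : restL (S := S.chg V.1 e he) E hE (chgL V.1 e he (cl B)) = Sp.cl B' := by rw [hB']; rfl
  obtain ⟨A1, hA1⟩ : ∃ A1 : (S.rest E).Inf, A1 = Sp.restI E A := ⟨_, rfl⟩
  obtain ⟨B1, hB1⟩ : ∃ B1 : (S.rest E).Inf, B1 = Sp.restI E (Inf.sup B V) := ⟨_, rfl⟩
  have e3 : restL E hE (cl A) = Sp.cl A1 := by rw [hA1]; rfl
  have e4 : restL E hE (cl B ⊔ cl V) = Sp.cl B1 := by rw [hB1]; rfl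
  rw [e1, e2, e3, e4, h_cl, h_cl]
  have key : ((S.chg V.1 e he).rest E).rt A'.1 B'.1 = fun k => e⁻¹ * (S.rest E).rt A1.1 B1.1 k := by
    funext k
    have h5 := rest_rt V (e := e) (he := he) E A.1 B.1 k
    rw [div_eq_inv_mul] at h5
    rw [hA', hB', hA1, hB1]
    exact h5
  rw [key]
  have h6 : UB ((S.rest E).rt A1.1 B1.1) := UB_rt A1 B1.1
  rw [ul_const_mul _ h6, div_eq_inv_mul]

/-- what is known to the new base on an event has zero rate there -/
theorem rest_chg_bot {A : S.L} (h1 : restL E hE A ≤ restL E hE (cl V)) :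
    restL (S := S.chg V.1 e he) E hE (chgL V.1 e he A) = ⊥ := by
  apply le_bot_iff.mp
  rw [← h_eq_zero_iff]
  have h2 := rest_chg_h V (e := e) (he := he) E hE A ⊥
  rw [bot_sup_eq, h_zero h1, zero_div] at h2
  have h3 : restL (S := S.chg V.1 e he) E hE (chgL V.1 e he (⊥ : S.L)) = ⊥ :=
    (congrArg _ (chgL_bot V.1 e he)).trans (restL_bot (S := S.chg V.1 e he) E hE)
  rw [h3] at h2
  exact h2

end

end Pool.Agent.Helper69.BF
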