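import Pool.Agent.Helper31.EC.Chg
import Pool.Agent.Helper31.EC.Uns

/-! Extensions of a space with changed base and depth are extensions of the space: rates over the new base on events are
rates over the old base, divided by the depth. -/

set_option autoImplicit false

namespace Pool.Agent.Helper69.BF

open Finset Filter Topology Pool.Agent.Helper69.RK Pool.Agent.Helper31.EC

noncomputable section

open Sp

variable {S : Sp} {Z : ∀ k, Setoid (S.F k).Ω} {e : ℝ} {he : 0 < e} {W : Sp} (p : Pj W (S.chg Z e he))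

/-- an extension of a changed space, with the old base and depth -/
def unS : Sp where
  F := fun k =>
    { Ω := (W.F k).Ω
      ft := (W.F k).ft
      μ := (W.F k).μ
      nn := (W.F k).nn
      ms := (W.F k).ms
      Z := Setoid.comap (p.π k) (S.F k).Z
      n := (S.F k).n
      pos := (S.F k).pos }
  lim := S.lim

/-- its projection -/
def unP : Pj (unS p) S := ⟨p.π, p.law, fun _ _ _ _ _ => Iff.rfl, fun _ => rfl⟩

theorem unS_pr (E : ∀ k, (W.F k).Ω → Prop) : (unS p).pr E = W.pr E := rfl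

variable (E : ∀ k, (W.F k).Ω → Prop)

theorem un_rt (A B : ∀ k, Setoid (W.F k).Ω) (k : ℕ) :
    (W.rest E).rt A B k = ((unS p).rest E).rt A (fun k => B k ⊓ Setoid.comap (p.π k) (Z k)) k / e := by
  have h1 : (W.rest E).rt A B k = ((W.F k).rest (E k)).e (A k) (B k ⊓ (W.F k).Z) / (W.F k).n := rfl
  have h2 : ((unS p).rest E).rt A (fun k => B k ⊓ Setoid.comap (p.π k) (Z k)) k =
      ((W.F k).rest (E k)).e (A k) (B k ⊓ Setoid.comap (p.π k) (Z k) ⊓ Setoid.comap (p.π k) (S.F k).Z) /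
        (S.F k).n := rfl
  rw [h1, h2, div_div]
  have h3 : (W.F k).n = e * (S.F k).n := p.hn k
  rw [h3, mul_comm e]
  congr 1
  apply ((W.F k).rest (E k)).e_congr_right
  intro ω ω' hω hω'
  have h4 : (W.F k).Z ω ω' ↔ (Z k ⊓ (S.F k).Z) (p.π k ω) (p.π k ω') :=
    p.hZ k ω ω' ((W.F k).rest_supp (E k) ω hω).1 ((W.F k).rest_supp (E k) ω' hω').1
  constructor
  · intro h
    have h5 := h4.mp h.2
    exact ⟨⟨h.1, h5.1⟩, h5.2⟩
  · intro h
    exact ⟨h.1.1, h4.mpr ⟨h.1.2, h.2⟩⟩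

end

noncomputable section

open Sp

variable {S : Sp} (V : S.Inf) {e : ℝ} {he : 0 < e} {W : Sp} (p : Pj W (S.chg V.1 e he))
variable (E : ∀ k, (W.F k).Ω → Prop) (hE : 0 < ul (W.pr E))

/-- rates over the changed base on events of extensions -/
theorem un_h (A B : S.L) :
    h (restL E hE (p.map (chgL V.1 e he A))) (restL E hE (p.map (chgL V.1 e he B))) =
      h (restL (S := unS p) E hE ((unP p).map A)) (restL (S := unS p) E hE ((unP p).map (B ⊔ cl V))) / e := by
  induction A using cl_ind with | _ A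
  induction B using cl_ind with | _ B
  obtain ⟨A', hA'⟩ : ∃ A' : (W.rest E).Inf, A' = Sp.restI E (p.mapI (chgI V.1 e he A)) := ⟨_, rfl⟩
  obtain ⟨B', hB'⟩ : ∃ B' : (W.rest E).Inf, B' = Sp.restI E (p.mapI (chgI V.1 e he B)) := ⟨_, rfl⟩
  have e1 : restL E hE (p.map (chgL V.1 e he (cl A))) = Sp.cl A' := by rw [hA']; rfl
  have e2 : restL E hE (p.map (chgL V.1 e he (cl B))) = Sp.cl B' := by rw [hB']; rfl
  obtain ⟨A1, hA1⟩ : ∃ A1 : ((unS p).rest E).Inf, A1 = Sp.restI (S := unS p) E ((unP p).mapI A) := ⟨_, rfl⟩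
  obtain ⟨B1, hB1⟩ : ∃ B1 : ((unS p).rest E).Inf, B1 = Sp.restI (S := unS p) E ((unP p).mapI (Inf.sup B V)) := ⟨_, rfl⟩
  have e3 : restL (S := unS p) E hE ((unP p).map (cl A)) = Sp.cl A1 := by rw [hA1]; rfl
  have e4 : restL (S := unS p) E hE ((unP p).map (cl B ⊔ cl V)) = Sp.cl B1 := by rw [hB1]; rfl
  rw [e1, e2, e3, e4, h_cl, h_cl]
  have key : (W.rest E).rt A'.1 B'.1 = fun k => e⁻¹ * ((unS p).rest E).rt A1.1 B1.1 k := by
    funext k
    have h5 := un_rt p E A'.1 B'.1 k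
    rw [h5, div_eq_inv_mul]
    rw [hA', hB', hA1, hB1]
    rfl
  rw [key]
  have h6 : UB (((unS p).rest E).rt A1.1 B1.1) := UB_rt A1 B1.1
  rw [ul_const_mul _ h6, div_eq_inv_mul]

end

end Pool.Agent.Helper69.BF
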