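import Pool.Agent.Helper69.BF.Pol

/-! **FLAT1**: a corner with `w1 = 1` whose base velocities are independent of the point has, in every window `s > 0`
with `(w + 2) s ≤ 1`, a polynomial sheet of degree four for `z`, in literal form, of relative precision `s`. -/

set_option autoImplicit false

namespace Pool.Agent.Helper69.BF

open Finset Filter Topology Pool.Agent.Helper69.RK Pool.Agent.Helper31.EC Pool.Agent.Helper82.TP
open Pool.Agent.Helper60.CS Pool.Agent.Helper25.EC Pool.Agent.Helper31.NSB Pool.Agent.Helper24.T3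
open Pool.Agent.Helper38.NS Pool.Agent.Helper38.NS.FB Pool.Agent.Helper99.CC Pool.Agent.Helper99.LF
open Pool.Agent.Helper99.EC (eval_mon)
open Pool.Agent.Helper50.CV (cbOf cbOf_fQ cbOf_z rlOf hypOf unOf gpOf)
open Pool.Agent.Helper40.NSK
open Pool.Agent.Helper57.TA (sc mem_of_sc_mul sc_add sc_mul_mem mv_small mem_PKr PKr Rt)
open Pool.Agent.Helper3.LF (Mon)

noncomputable section

open Sp QS

variable {S : Sp} {H : RD S} {f : FR S} {w ρ s : ℝ} {Sc : Set ℝ}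

namespace Rp

variable (P : Rp H f s) (h : Scs s (w * s))

/-- the box coordinates of the corner -/
def G3 : Fin 3 → QS S := ![P.g0 h, P.gy h 0, P.gy h 1]

/-- the frame of `z` -/
def frm (H : RD S) (f : FR S) (s : ℝ) : QS S := f.z0 s + f.k0 s * H.t + f.k1 s * H.y + f.c s * H.R

/-- the frame as a polynomial of the box coordinates, scaled -/
def Qf (f : FR S) (w s : ℝ) : MvPolynomial (Fin 3) (QS S) :=
  MvPolynomial.C (sc S (1 - 2 * s - w * s) * (f.z0 s + f.k0 s * f.t0 s + f.k1 s * f.y0 s +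
    f.c s * (f.r0 s + f.rt s * f.t0 s + f.ry s * f.y0 s))) +
  MvPolynomial.C (sc S (1 - 2 * s - w * s) * sc S s * f.k0 s) * MvPolynomial.X 0 +
  MvPolynomial.C (sc S (1 - 2 * s - w * s) * sc S s * f.k1 s) * MvPolynomial.X 1 +
  MvPolynomial.C (sc S (1 - 2 * s - w * s) * sc S s * f.c s) * MvPolynomial.X 2

theorem bt : H.t - f.t0 s = sc S s * P.g0 h := by
  rw [← P.box_t h, P.qt_eq, P.ht0]

theorem byy : H.y - f.y0 s = sc S s * P.gy h 0 := by
  rw [← P.box_y h, P.qy0_eq, P.hy0]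

theorem bR : H.R - (f.r0 s + f.rt s * f.t0 s + f.ry s * f.y0 s) = sc S s * P.gy h 1 := by
  rw [← P.box_y h, P.qy1_eq, P.hR0]

theorem eval_Qf : MvPolynomial.eval (P.G3 h) (Qf f w s) = sc S (1 - 2 * s - w * s) * frm H f s := by
  unfold Qf
  simp only [map_add, map_mul, MvPolynomial.eval_C, MvPolynomial.eval_X]
  have e0 : P.G3 h 0 = P.g0 h := rfl
  have e1 : P.G3 h 1 = P.gy h 0 := rfl
  have e2 : P.G3 h 2 = P.gy h 1 := rfl
  rw [e0, e1, e2]
  have h0 := P.bt h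
  have h1 := P.byy h
  have h2 := P.bR h
  have k0 : sc S (1 - 2 * s - w * s) * sc S s * f.k0 s * P.g0 h =
      sc S (1 - 2 * s - w * s) * f.k0 s * (sc S s * P.g0 h) := by ring
  have k1 : sc S (1 - 2 * s - w * s) * sc S s * f.k1 s * P.gy h 0 =
      sc S (1 - 2 * s - w * s) * f.k1 s * (sc S s * P.gy h 0) := by ring
  have k2 : sc S (1 - 2 * s - w * s) * sc S s * f.c s * P.gy h 1 =
      sc S (1 - 2 * s - w * s) * f.c s * (sc S s * P.gy h 1) := by ring
  rw [k0, k1, k2, ← h0, ← h1, ← h2]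
  unfold frm
  ring

theorem Qf_PR (cc : CC H f 1 w ρ Sc) (hs : s ∈ Sc) : Qf f w s ∈ PR (N := 3) (LR (H.K s)) := by
  obtain ⟨l1, l2⟩ := cc.lt s hs
  obtain ⟨l3, l4, l5⟩ := cc.lr s hs
  obtain ⟨l6, l7, l8, l9⟩ := cc.lz s hs
  have hsc : ∀ u : ℝ, sc S u ∈ LR (H.K s) := fun u => lit_sc u
  have m1 : f.t0 s ∈ LR (H.K s) := l1
  have m2 : f.y0 s ∈ LR (H.K s) := l2
  have m3 : f.r0 s ∈ LR (H.K s) := l3
  have m4 : f.rt s ∈ LR (H.K s) := l4
  have m5 : f.ry s ∈ LR (H.K s) := l5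
  have m6 : f.z0 s ∈ LR (H.K s) := l6
  have m7 : f.k0 s ∈ LR (H.K s) := l7
  have m8 : f.k1 s ∈ LR (H.K s) := l8
  have m9 : f.c s ∈ LR (H.K s) := l9
  unfold Qf
  refine Subring.add_mem _ (Subring.add_mem _ (Subring.add_mem _ (C_PR ?_) (Subring.mul_mem _ (C_PR ?_) (X_PR 0)))
    (Subring.mul_mem _ (C_PR ?_) (X_PR 1))) (Subring.mul_mem _ (C_PR ?_) (X_PR 2))
  · refine Subring.mul_mem _ (hsc _) (Subring.add_mem _ (Subring.add_mem _ (Subring.add_mem _ m6
      (Subring.mul_mem _ m7 m1)) (Subring.mul_mem _ m8 m2)) (Subring.mul_mem _ m9 ?_))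
    exact Subring.add_mem _ (Subring.add_mem _ m3 (Subring.mul_mem _ m4 m1)) (Subring.mul_mem _ m5 m2)
  · exact Subring.mul_mem _ (Subring.mul_mem _ (hsc _) (hsc _)) m7
  · exact Subring.mul_mem _ (Subring.mul_mem _ (hsc _) (hsc _)) m8
  · exact Subring.mul_mem _ (Subring.mul_mem _ (hsc _) (hsc _)) m9

theorem Qf_deg : (Qf f w s).totalDegree ≤ 4 := by
  have hX : ∀ (c : QS S) (i : Fin 3), (MvPolynomial.C c * MvPolynomial.X i : MvPolynomial (Fin 3) (QS S)).totalDegree ≤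
      4 := by
    intro c i
    refine (MvPolynomial.totalDegree_mul _ _).trans ?_
    rw [MvPolynomial.totalDegree_C, zero_add]
    rcases subsingleton_or_nontrivial (QS S) with h | h
    · have : (MvPolynomial.X i : MvPolynomial (Fin 3) (QS S)) = 0 := Subsingleton.elim _ _
      rw [this, MvPolynomial.totalDegree_zero]
      omega
    · rw [MvPolynomial.totalDegree_X]
      omega
  unfold Qf
  refine (MvPolynomial.totalDegree_add _ _).trans (max_le ?_ (hX _ _))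
  refine (MvPolynomial.totalDegree_add _ _).trans (max_le ?_ (hX _ _))
  refine (MvPolynomial.totalDegree_add _ _).trans (max_le ?_ (hX _ _))
  rw [MvPolynomial.totalDegree_C]
  omega

/-- ZERO RATE of common literal functions of the line and of the point -/
theorem zero_rate (cc : CC H f 1 w ρ Sc) (hs : s ∈ Sc) {g : QS (P.D.sp h)} (lB : Lit (S := P.D.sp h) (P.pc h) g)
    (lA : Lit (S := P.D.sp h) (VAs H s) g) : dg g 1 ≤ ⊥ := by
  obtain ⟨E, hEd⟩ : ∃ E : ∀ k, ((P.D.sp h).F k).Ω → Prop, E = fun _ _ => True := ⟨_, rfl⟩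
  have hT : Typ (S := P.D.sp h) E := by rw [hEd]; exact Typ_true
  have h1 := P.agC h cc hs E (ul_pr_typ_pos E hT) g g 1 one_pos le_rfl (Fn_of_lit lB) (Fn_of_lit lA)
    (by rw [sub_self, map_zero]; exact (Id _ 1).zero_mem)
  rw [QS.rest_dg] at h1
  have h2 : restL E (ul_pr_typ_pos E hT) (dg g 1) ≤ restL E (ul_pr_typ_pos E hT) ⊥ := h1.le.trans bot_le
  exact (restL_le_typ E hT _ _).mp h2

theorem hom_lit_bot {g : QS S} (hg : Lit (H.K s) g) : dg (P.hom h g) 1 ≤ ⊥ := by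
  have h1 : dg (P.hom h g) 1 = chgL P.D.V.1 (1 - s) h.e0 (dg g ((1 - s) * 1)) := cgh_dg _ _ _ _ _ le_rfl
  rw [h1]
  have h2 : dg g ((1 - s) * 1) ≤ cl P.D.V := by
    have h3 := hg.dg_le P.bK (r := (1 - s) * 1) (by linarith [h.s0])
    have h4 : cl P.D.V = H.κ s := P.κ_eq
    rw [h4]
    exact h3
  refine (chgL_mono _ _ _ h2).trans ?_
  rw [chgL_base]

/-- the coefficients over the space -/
theorem exists_coefs (cc : CC H f 1 w ρ Sc) (lf : LitF H) (hs : s ∈ Sc) (h0 : 0 < s) (h1 : (w + 2) * s ≤ 1)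
    (hx : I (dg H.x 1 ⊔ dg H.F 1) (H.κ s ⊔ H.B) ⊥ = 0) :
    ∃ dA dB : Mon 3 4 → QS S, (∀ a, Lit (VAs H s) (dA a)) ∧ (∀ a, Lit (VBs H s) (dB a)) ∧
      (∀ a, dA a - dB a ∈ Id S s) ∧
      H.z - frm H f s - sc S (w * s) * ∑ a, dB a * ∏ i, P.G3 h i ^ (a.1 i : ℕ) ∈ Id S (w * s + s) := by
  have hs1 : s ≤ 1 := by linarith [h.e0]
  have hU := h.r0
  have hC := P.corN h cc lf hs h0 h1 hx 2
  have hy := hypOf _ hC
  have hq := rlOf _ hC
  have hu := unOf _ hC
  have hG := gpOf _ (le_refl 2) hC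
  rw [cbOf_fc] at hy hq hu hG
  have la : ∀ i, Lit (S := P.D.sp h) (VAs H s) (QS.mk ((P.D.trz h).a i)) := P.lit_a h lf
  have lx : ∀ i, Lit (S := P.D.sp h) (VAs H s) (QS.mk ((P.D.trz h).x i)) := P.lit_x h lf
  have lc : ∀ i, Lit (S := P.D.sp h) (VAs H s) (QS.mk ((P.D.trz h).c i)) := by
    intro i
    induction i using Fin.cases with
    | zero => exact P.lit_b h lf
    | succ i => exact P.lit_v h lf
  obtain ⟨cf, lB, lA, hz⟩ := exact_leaf_one (P.D.trz h) hy hq cc.hρ hu hG (VAs H s) la lx lc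
  have h2 : ∀ a, ∃ g : QS S, Lit (VBs H s) g ∧ P.hom h g = cf a := fun a =>
    lit_cgh_back P.D.V.1 (1 - s) h.e0 h.e1 (P.pc_fun h) (lB a)
  have h3 : ∀ a, ∃ g : QS S, Lit (VAs H s) g ∧ P.hom h g = cf a := fun a =>
    lit_cgh_back P.D.V.1 (1 - s) h.e0 h.e1 P.va_fun (lA a)
  choose cB hcB hcB' using h2
  choose cA hcA hcA' using h3
  have hrate : ∀ a, dg (cf a) 1 ≤ ⊥ := fun a => P.zero_rate h cc hs (lB a) (lA a)
  -- the box coordinates
  have hG3 : ∀ i, QS.mk ((P.D.trz h).q i) = P.hom h (P.G3 h i) := by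
    intro i
    rw [P.D.trz_q h]
    fin_cases i
    · rfl
    · rfl
    · rfl
  have hz1 : P.hom h (sc S (1 - 2 * s - w * s) * H.z) = ∑ a, cf a * ∏ i, P.hom h (P.G3 h i) ^ (a.1 i : ℕ) := by
    rw [← P.qz_eq, ← P.hom_cz h, ← P.D.trz_z h, hz]
    simp only [hG3]
  -- small polynomial
  have hrr : (1 - s) * ((1 - 2 * s) / (1 - s)) = 1 - 2 * s := mul_div_cancel₀ _ h.e0.ne'
  have hr1 : (1 - 2 * s) / (1 - s) ≤ 1 := by
    rw [div_le_one h.e0]
    linarith [h.s0]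
  have hfr : sc S (1 - 2 * s - w * s) * (H.z - frm H f s) ∈ Id S (1 - 2 * s) := by
    have k1 := sc_mul_mem (S := S) hU (cc.frZ s hs)
    have e1 : 1 - 2 * s - w * s + w * s = 1 - 2 * s := by ring
    rwa [e1] at k1
  have hQd := Qf_deg (f := f) (w := w) (s := s)
  have hQe : ∑ a : Mon 3 4, (Qf f w s).coeff a.ex * ∏ i, P.G3 h i ^ (a.1 i : ℕ) =
      sc S (1 - 2 * s - w * s) * frm H f s := by
    rw [← eval_mon (Qf f w s) hQd, P.eval_Qf h]
  have hev : MvPolynomial.eval (fun i => P.hom h (P.G3 h i)) (pol cf - MvPolynomial.map (P.hom h) (Qf f w s)) ∈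
      Id (P.D.sp h) ((1 - 2 * s) / (1 - s)) := by
    rw [map_sub, eval_pol, ← hz1]
    have k1 : MvPolynomial.eval (fun i => P.hom h (P.G3 h i)) (MvPolynomial.map (P.hom h) (Qf f w s)) =
        P.hom h (sc S (1 - 2 * s - w * s) * frm H f s) := by
      rw [← P.eval_Qf h]
      exact (MvPolynomial.map_eval (P.hom h) (P.G3 h) (Qf f w s)).symm
    rw [k1, ← map_sub, ← mul_sub]
    rw [cgh_mem _ _ _ _ _ hr1, hrr]
    exact hfr
  have hRt : Rt 1 (fun i : Fin 3 => P.hom h (P.G3 h i)) ⊥ := by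
    have k1 : (cbOf (fc (P.D.trz h))).fb.q = fun i : Fin 3 => P.hom h (P.G3 h i) := by
      funext i
      rw [← hG3]
      exact fc_q (P.D.trz h) i
    have k2 : Rl (cbOf (fc (P.D.trz h))).fb.q ⊥ := rlOf _ hC
    rw [k1] at k2
    unfold Rt
    rw [mul_one]
    exact k2
  have hPK : pol cf - MvPolynomial.map (P.hom h) (Qf f w s) ∈ PKr 1 le_rfl (⊥ : (P.D.sp h).L) := by
    rw [mem_PKr]
    intro m
    rw [MvPolynomial.coeff_sub]
    apply (Kn (P.D.sp h) 1 le_rfl ⊥).sub_mem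
    · exact coeff_PR (R := Kn (P.D.sp h) 1 le_rfl ⊥) (sub_PR (fun i => X_PR i) hrate) m
    · rw [MvPolynomial.coeff_map]
      exact P.hom_lit_bot h (coeff_PR (Qf_PR cc hs) m)
  have hsm : ∀ a : Mon 3 4, cf a - P.hom h ((Qf f w s).coeff a.ex) ∈ Id (P.D.sp h) ((1 - 2 * s) / (1 - s)) := by
    intro a
    have k1 := mv_small one_pos le_rfl hRt hr1 le_rfl hPK hev a.ex
    rw [MvPolynomial.coeff_sub, MvPolynomial.coeff_map, pol_coeff] at k1
    exact k1
  have h12 : 0 ≤ 1 - 2 * s := by linarith [h.hs, h.g0]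
  have h12' : 1 - 2 * s ≤ 1 := by linarith [h.s0]
  have mem : ∀ (g : QS S) (a : Mon 3 4), P.hom h g = cf a → g - (Qf f w s).coeff a.ex ∈ Id S (1 - 2 * s) := by
    intro g a hg
    have k1 := hsm a
    rw [← hg, ← map_sub, cgh_mem _ _ _ _ _ hr1, hrr] at k1
    exact k1
  have lQB : ∀ m, Lit (VBs H s) ((Qf f w s).coeff m) := fun m => litKB (coeff_PR (Qf_PR cc hs) m)
  have lQA : ∀ m, Lit (VAs H s) ((Qf f w s).coeff m) := fun m => litKA (coeff_PR (Qf_PR cc hs) m)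
  have k1 : ∀ a, ∃ g : QS S, cB a - (Qf f w s).coeff a.ex = sc S (1 - 2 * s) * g ∧ Lit (VBs H s) g := fun a =>
    lit_div h12 h12' ((hcB a).sub (lQB _)) (mem _ a (hcB' a))
  have k2 : ∀ a, ∃ g : QS S, cA a - (Qf f w s).coeff a.ex = sc S (1 - 2 * s) * g ∧ Lit (VAs H s) g := fun a =>
    lit_div h12 h12' ((hcA a).sub (lQA _)) (mem _ a (hcA' a))
  choose dB hdB ldB using k1
  choose dA hdA ldA using k2
  refine ⟨dA, dB, ldA, ldB, fun a => ?_, ?_⟩
  · have k3 : cA a - cB a ∈ Id S (1 - s) := cgh_eq P.D.V.1 (1 - s) h.e0 h.e1 ((hcA' a).trans (hcB' a).symm)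
    have k4 : sc S (1 - 2 * s) * (dA a - dB a) = cA a - cB a := by
      rw [mul_sub, ← hdA, ← hdB]
      ring
    rw [← k4] at k3
    have k5 := mem_of_sc_mul h12 h.e1 k3
    have e1 : 1 - s - (1 - 2 * s) = s := by ring
    rwa [e1] at k5
  · have k3 : sc S (1 - 2 * s - w * s) * H.z - ∑ a, cB a * ∏ i, P.G3 h i ^ (a.1 i : ℕ) ∈ Id S (1 - s) := by
      apply cgh_eq P.D.V.1 (1 - s) h.e0 h.e1
      have k4 : P.hom h (∑ a, cB a * ∏ i, P.G3 h i ^ (a.1 i : ℕ)) =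
          ∑ a, cf a * ∏ i, P.hom h (P.G3 h i) ^ (a.1 i : ℕ) := by
        rw [map_sum]
        apply Finset.sum_congr rfl
        intro a _
        rw [map_mul, map_prod, hcB']
        simp only [map_pow]
      rw [← k4] at hz1
      exact hz1
    have e0 : sc S (1 - 2 * s) = sc S (1 - 2 * s - w * s) * sc S (w * s) := by
      rw [← sc_add hU h.g0.le]
      congr 1
      ring
    have k5 : ∑ a, cB a * ∏ i, P.G3 h i ^ (a.1 i : ℕ) = sc S (1 - 2 * s - w * s) * frm H f s +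
        sc S (1 - 2 * s - w * s) * (sc S (w * s) * ∑ a, dB a * ∏ i, P.G3 h i ^ (a.1 i : ℕ)) := by
      rw [← mul_assoc, ← e0, Finset.mul_sum, ← hQe, ← Finset.sum_add_distrib]
      apply Finset.sum_congr rfl
      intro a _
      have k6 := hdB a
      rw [sub_eq_iff_eq_add] at k6
      rw [k6]
      ring
    rw [k5, ← sub_sub, ← mul_sub, ← mul_sub] at k3
    have k6 := mem_of_sc_mul hU h.e1 k3
    have e1 : 1 - s - (1 - 2 * s - w * s) = w * s + s := by ring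
    rwa [e1] at k6

end Rp

/-- **FLAT1**, in the window `s` -/
theorem flat1 (cc : CC H f 1 w ρ Sc) (lf : LitF H) (hs : s ∈ Sc) (h0 : 0 < s) (h1 : (w + 2) * s ≤ 1)
    (hx : I (dg H.x 1 ⊔ dg H.F 1) (H.κ s ⊔ H.B) ⊥ = 0) : OutL H f 1 w 4 s s s := by
  have hw := cc.hw
  have hs1 : s ≤ 1 := by nlinarith
  obtain ⟨P⟩ := exists_rp cc lf hs hs1
  have h : Scs s (w * s) := Rp.scs cc h1 h0
  obtain ⟨dA, dB, lA, lB, hd, hz⟩ := P.exists_coefs h cc lf hs h0 h1 hx
  obtain ⟨E, hEd⟩ : ∃ E : ∀ k, (S.F k).Ω → Prop, E = fun _ _ => True := ⟨_, rfl⟩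
  have hT : Typ (S := S) E := by rw [hEd]; exact Typ_true
  have hE := ul_pr_typ_pos E hT
  -- the coordinates
  obtain ⟨φ, hφ⟩ : ∃ φ : Fin 3 → MvPolynomial (Fin 3) (QS S), φ = ![MvPolynomial.X 0, MvPolynomial.X 1,
    MvPolynomial.X 2 + MvPolynomial.C (f.rt s) * MvPolynomial.X 0 + MvPolynomial.C (f.ry s) * MvPolynomial.X 1] :=
    ⟨_, rfl⟩
  obtain ⟨g, hg⟩ : ∃ g : Fin 3 → QS S, g = ![P.g0 h, P.gy h 0, P.gy h 1 - f.rt s * P.g0 h - f.ry s * P.gy h 0] :=
    ⟨_, rfl⟩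
  have hφe : ∀ i, MvPolynomial.eval g (φ i) = P.G3 h i := by
    intro i
    rw [hφ]
    fin_cases i
    · show MvPolynomial.eval g (MvPolynomial.X 0) = P.g0 h
      rw [MvPolynomial.eval_X, hg]
      rfl
    · show MvPolynomial.eval g (MvPolynomial.X 1) = P.gy h 0
      rw [MvPolynomial.eval_X, hg]
      rfl
    · show MvPolynomial.eval g (MvPolynomial.X 2 + MvPolynomial.C (f.rt s) * MvPolynomial.X 0 +
        MvPolynomial.C (f.ry s) * MvPolynomial.X 1) = P.gy h 1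
      simp only [map_add, map_mul, MvPolynomial.eval_X, MvPolynomial.eval_C]
      rw [hg]
      show (P.gy h 1 - f.rt s * P.g0 h - f.ry s * P.gy h 0) + f.rt s * P.g0 h + f.ry s * P.gy h 0 = P.gy h 1
      ring
  have hφd : ∀ i, (φ i).totalDegree ≤ 1 := by
    have hX : ∀ i : Fin 3, (MvPolynomial.X i : MvPolynomial (Fin 3) (QS S)).totalDegree ≤ 1 := by
      intro i
      rcases subsingleton_or_nontrivial (QS S) with h | h
      · have : (MvPolynomial.X i : MvPolynomial (Fin 3) (QS S)) = 0 := Subsingleton.elim _ _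
        rw [this, MvPolynomial.totalDegree_zero]
        exact Nat.zero_le _
      · rw [MvPolynomial.totalDegree_X]
    have hCX : ∀ (c : QS S) (i : Fin 3), (MvPolynomial.C c * MvPolynomial.X i :
        MvPolynomial (Fin 3) (QS S)).totalDegree ≤ 1 := by
      intro c i
      refine (MvPolynomial.totalDegree_mul _ _).trans ?_
      rw [MvPolynomial.totalDegree_C, zero_add]
      exact hX i
    intro i
    rw [hφ]
    fin_cases i
    · exact hX 0
    · exact hX 1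
    · exact (MvPolynomial.totalDegree_add _ _).trans (max_le ((MvPolynomial.totalDegree_add _ _).trans
        (max_le (hX 2) (hCX _ _))) (hCX _ _))
  obtain ⟨-, l4, l5⟩ := cc.lr s hs
  have hφR : ∀ {α : ℕ → Type} {V : ∀ k, (S.F k).Ω → α k}, Lit V (f.rt s) → Lit V (f.ry s) →
      ∀ i, φ i ∈ PR (N := 3) (LR V) := by
    intro α V r1 r2 i
    rw [hφ]
    fin_cases i
    · exact X_PR 0
    · exact X_PR 1
    · exact Subring.add_mem _ (Subring.add_mem _ (X_PR 2) (Subring.mul_mem _ (C_PR r1) (X_PR 0)))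
        (Subring.mul_mem _ (C_PR r2) (X_PR 1))
  have hws : w * s + s ≤ 1 := by nlinarith
  refine ⟨h0, le_rfl, hws, E, hE, fun a => (sub φ dA).coeff a.ex, fun a => (sub φ dB).coeff a.ex, g, fun a => ?_, fun a => ?_,
    fun a => ?_, ⟨?_, ?_, ?_⟩, ?_⟩
  · exact coeff_PR (sub_PR (hφR (litKA l4) (litKA l5)) lA) _
  · exact coeff_PR (sub_PR (hφR (litKB l4) (litKB l5)) lB) _
  · have e1 : w * (s - s) + s = s := by ring
    rw [e1]
    exact rest_mem_Id E hE hs1 (sub_sub_coeff φ hd _)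
  · rw [hg]
    exact P.bt h
  · rw [hg]
    exact P.byy h
  · have k0 := P.bt h
    have k1 := P.byy h
    have k2 := P.bR h
    rw [hg, one_mul]
    show _ = sc S s * (P.gy h 1 - f.rt s * P.g0 h - f.ry s * P.gy h 0)
    have k3 : sc S s * (P.gy h 1 - f.rt s * P.g0 h - f.ry s * P.gy h 0) = sc S s * P.gy h 1 -
      f.rt s * (sc S s * P.g0 h) - f.ry s * (sc S s * P.gy h 0) := by ring
    rw [k3, ← k0, ← k1, ← k2]
    ring
  · apply rest_mem_Id E hE hws
    have k4 : ∑ a : Mon 3 4, (sub φ dB).coeff a.ex * ∏ i, g i ^ (a.1 i : ℕ) =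
        ∑ a, dB a * ∏ i, P.G3 h i ^ (a.1 i : ℕ) := by
      rw [← eval_mon (sub φ dB) (sub_deg φ hφd dB), eval_sub]
      simp only [hφe]
    rw [k4]
    exact hz

/-- **ROW B_FLAT1** -/
theorem st_flat1 : ST_FLAT1 := by
  intro S H f w ρ σ Sc cc hx hσ hwσ hle hσS hd
  have hw := cc.hw
  have h0 : 0 < w + 2 := by linarith
  obtain ⟨s, hs, h1, h2⟩ := hd 0 (min σ (1 / (w + 2))) le_rfl (lt_min hσ (one_div_pos.mpr h0)) (min_le_left _ _)
  have h3 : (w + 2) * s ≤ 1 := by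
    have h4 := h2.trans_le (min_le_right σ (1 / (w + 2)))
    rw [lt_div_iff₀ h0] at h4
    linarith
  exact ⟨s, hs, s, flat1 cc (LitF.of cc.toC0) hs h1 h3 (hx s hs)⟩

end

end Pool.Agent.Helper69.BF
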