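import Pool.Agent.Helper69.BF.Rp

/-! Literal functions of the corner in the window `s`: the line is literal in `(VA, K s)`, the point in `(VB, K s)`;
the agreement condition over the label and the bushes in general position; the corner is a flat corner. -/

set_option autoImplicit false

namespace Pool.Agent.Helper69.BF

open Finset Filter Topology Pool.Agent.Helper69.RK Pool.Agent.Helper31.EC Pool.Agent.Helper82.TP
open Pool.Agent.Helper60.CS Pool.Agent.Helper25.EC Pool.Agent.Helper31.NSB Pool.Agent.Helper24.T3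
open Pool.Agent.Helper38.NS Pool.Agent.Helper38.NS.FB Pool.Agent.Helper99.CC Pool.Agent.Helper99.LF
open Pool.Agent.Helper50.CV (cbOf cbOf_fQ cbOf_z rlOf)
open Pool.Agent.Helper40.NSK
open Pool.Agent.Helper57.TA (sc scT ev_scT mem_Id_iff sc_mul_mem_iff mem_of_sc_mul sc_add sc_mul_mem)

noncomputable section

open Sp QS

variable {S : Sp} {H : RD S} {f : FR S} {w ρ s : ℝ} {Sc : Set ℝ}

theorem box_gen {f g u : TR S} {s : ℝ} (hs : 0 ≤ s)
    (h : Typ (S := S) (fun k ω => f.1 k ω = g.1 k ω + S.dl s k * u.1 k ω)) :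
    QS.mk f - QS.mk g = sc S s * QS.mk u := by
  unfold sc
  rw [← map_sub, ← map_mul, QS.mk_eq]
  apply TR.Te.ag
  refine ⟨_, h, Eventually.of_forall fun k ω _ h1 => ?_⟩
  rw [TR.ev_sub, TR.ev_mul, ev_scT hs]
  show f.1 k ω - g.1 k ω = S.dl s k * u.1 k ω
  rw [h1]
  ring

theorem mk_sct (r : ℝ) (hr : 0 ≤ r) : QS.mk (sct S r hr) = sc S r := by
  unfold sc
  congr 1
  apply Subtype.ext
  funext k ω
  show S.dl r k = S.dl (max r 0) k
  rw [max_eq_left hr]

/-- literal in `(VA, K s)` -/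
theorem litA {g : QS S} (h : Lit H.VA g) : Lit (VAs H s) g :=
  h.of_fun (Eventually.of_forall fun _ _ _ _ _ _ e => congrArg Prod.fst e)

theorem litB {g : QS S} (h : Lit H.VB g) : Lit (VBs H s) g :=
  h.of_fun (Eventually.of_forall fun _ _ _ _ _ _ e => congrArg Prod.fst e)

theorem litKA {g : QS S} (h : Lit (H.K s) g) : Lit (VAs H s) g :=
  h.of_fun (Eventually.of_forall fun _ _ _ _ _ _ e => congrArg Prod.snd e)

theorem litKB {g : QS S} (h : Lit (H.K s) g) : Lit (VBs H s) g :=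
  h.of_fun (Eventually.of_forall fun _ _ _ _ _ _ e => congrArg Prod.snd e)

theorem LT.lit {β : ℕ → Type} {V : ∀ k, (S.F k).Ω → β k} {g : TR S} (h : LT V g) : Lit V (QS.mk g) := ⟨g, rfl, h⟩

namespace Rp

variable (P : Rp H f s) (h : Scs s (w * s))

/-- the ring homomorphism to the corner space -/
abbrev hom : QS S →+* QS (P.D.sp h) := cgh P.D.V.1 (1 - s) h.e0 h.e1

/-- box coordinate of `t` -/
def g0 : QS S := QS.mk (trb P.D.V.1 (1 - s) h.e0 (P.D.ct h))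
/-- box coordinates of `y`, `R` -/
def gy (i : Fin 2) : QS S := QS.mk (trb P.D.V.1 (1 - s) h.e0 (P.D.cy h i))

theorem hom_g0 : P.hom h (P.g0 h) = QS.mk (P.D.ct h) := rfl
theorem hom_gy (i : Fin 2) : P.hom h (P.gy h i) = QS.mk (P.D.cy h i) := rfl

theorem box_t : P.D.qt - QS.mk P.D.t0 = sc S s * P.g0 h := box_gen h.s0.le (P.D.typ_t h P.lts)

theorem box_y (i : Fin 2) : P.D.qy i - QS.mk (P.D.y0 i) = sc S s * P.gy h i := box_gen h.s0.le (P.D.typ_y h P.lts i)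

/-- the intercept of the base line is literal -/
theorem lit_a (lf : LitF H) (i : Fin 2) : Lit (S := P.D.sp h) (VAs H s)
    (QS.mk (P.D.cy h i - P.D.ct h * P.D.cx h i)) := by
  have e1 : QS.mk (P.D.cy h i - P.D.ct h * P.D.cx h i) = P.hom h (P.gy h i - P.g0 h * P.D.qx i) := by
    have h5 : P.hom h (P.D.qx i) = QS.mk (P.D.cx h i) := rfl
    rw [map_sub, map_mul, map_sub, map_mul, h5, hom_g0, hom_gy]
  have e2 : sc S s * (P.gy h i - P.g0 h * P.D.qx i) = P.D.qa i - QS.mk (P.D.y0 i) + QS.mk P.D.t0 * P.D.qx i := by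
    have h1 := P.box_t h
    have h2 := P.box_y h i
    have h3 := P.D.qy_eq i
    rw [mul_sub, ← h2, ← mul_assoc, ← h1, h3]
    ring
  have lqa : Lit (VAs H s) (P.D.qa i) := by
    fin_cases i
    · exact litA (by rw [show P.D.qa ((fun i => i) ⟨0, _⟩) = H.a from P.qa0_eq]; exact lf.a)
    · exact litA (by rw [show P.D.qa ((fun i => i) ⟨1, _⟩) = H.cR from P.qa1_eq]; exact lf.cR)
  have lqx : Lit (VAs H s) (P.D.qx i) := by
    fin_cases i
    · exact litA (by rw [show P.D.qx ((fun i => i) ⟨0, _⟩) = H.x from P.qx0_eq]; exact lf.x)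
    · exact litA (by rw [show P.D.qx ((fun i => i) ⟨1, _⟩) = H.F from P.qx1_eq]; exact lf.F)
  have l1 : Lit (VAs H s) (P.D.qa i - QS.mk (P.D.y0 i) + QS.mk P.D.t0 * P.D.qx i) :=
    (lqa.sub (litKA (P.ly0 i).lit)).add ((litKA P.lt0.lit).mul lqx)
  have hs1 : s ≤ 1 := by linarith [h.e0]
  have m1 : P.D.qa i - QS.mk (P.D.y0 i) + QS.mk P.D.t0 * P.D.qx i ∈ Id S s := by
    rw [← e2]
    have h1 := sc_mul_mem (S := S) h.s0.le (mem_Id_nonpos (S := S) (f := P.gy h i - P.g0 h * P.D.qx i) le_rfl)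
    rwa [add_zero] at h1
  obtain ⟨G, hG, lG⟩ := lit_div h.s0.le hs1 l1 m1
  rw [← e2] at hG
  have e3 : P.hom h (P.gy h i - P.g0 h * P.D.qx i) = P.hom h G := by
    apply cgh_eq'
    have h1 : sc S s * (P.gy h i - P.g0 h * P.D.qx i - G) ∈ Id S 1 := by
      rw [mul_sub, hG, sub_self]
      exact (Id S 1).zero_mem
    exact mem_of_sc_mul h.s0.le le_rfl h1
  rw [e1, e3]
  exact lit_cgh _ _ _ _ lG

theorem lit_x (lf : LitF H) (i : Fin 2) : Lit (S := P.D.sp h) (VAs H s) (QS.mk (P.D.cx h i)) := by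
  have lqx : Lit (VAs H s) (P.D.qx i) := by
    fin_cases i
    · exact litA (by rw [show P.D.qx ((fun i => i) ⟨0, _⟩) = H.x from P.qx0_eq]; exact lf.x)
    · exact litA (by rw [show P.D.qx ((fun i => i) ⟨1, _⟩) = H.F from P.qx1_eq]; exact lf.F)
  exact lit_cgh P.D.V.1 (1 - s) h.e0 h.e1 lqx

theorem hom_cv : QS.mk (P.D.cv h) = P.hom h (sc S (1 - s - w * s) * P.D.qv) := by
  rw [← mk_sct _ h.r1]
  rfl

theorem hom_cz : QS.mk (P.D.cz h) = P.hom h (sc S (1 - 2 * s - w * s) * P.D.qz) := by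
  rw [← mk_sct _ h.r0]
  rfl

theorem lit_v (lf : LitF H) : Lit (S := P.D.sp h) (VAs H s) (QS.mk (P.D.cv h)) := by
  rw [P.hom_cv h]
  exact lit_cgh _ _ _ _ ((lit_sc _).mul (litA (P.qv_eq ▸ lf.v)))

theorem lit_b (lf : LitF H) : Lit (S := P.D.sp h) (VAs H s) (QS.mk (P.D.cz h - P.D.cv h * P.D.ct h)) := by
  have e1 : QS.mk (P.D.cz h - P.D.cv h * P.D.ct h) = P.hom h (sc S (1 - 2 * s - w * s) *
      (P.D.qb + P.D.qv * QS.mk P.D.t0)) := by
    rw [map_sub, map_mul, hom_cv, hom_cz, ← P.hom_g0 h, ← map_mul, ← map_sub]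
    congr 1
    have h1 := P.box_t h
    have h2 : sc S (1 - s - w * s) = sc S (1 - 2 * s - w * s) * sc S s := by
      rw [← sc_add h.r0 h.s0.le]
      congr 1
      ring
    have h3 := P.D.qz_eq
    rw [h2, h3]
    have h4 : sc S (1 - 2 * s - w * s) * sc S s * P.D.qv * P.g0 h = sc S (1 - 2 * s - w * s) * P.D.qv *
      (sc S s * P.g0 h) := by ring
    rw [h4, ← h1]
    ring
  rw [e1]
  apply lit_cgh
  exact (lit_sc _).mul ((litA (P.qb_eq ▸ lf.az)).add ((litA (P.qv_eq ▸ lf.v)).mul (litKA P.lt0.lit)))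

/-- the cells of the point in the window `s` -/
def pc : ∀ k, (S.F k).Ω → Fin (2 + 1 + 1) → ℤ := (P.D.trz h).pv.cellv 1

theorem pc_bdd : Bdd (S := P.D.sp h) (P.pc h) := (P.D.trz h).pv.bdd 1

/-- the cells of the point are a function of `(VB, K s)` -/
theorem pc_fun : ∀ᶠ k in UF, ∀ ω ω', (S.F k).μ ω ≠ 0 → (S.F k).μ ω' ≠ 0 → (S.F k).Z ω ω' →
    VBs H s k ω = VBs H s k ω' → P.D.V.1 k ω ω' ∧ P.pc h k ω = P.pc h k ω' := by
  have hy : ∀ᶠ k in UF, ∀ i ∈ (Finset.univ : Finset (Fin 2)), ∀ ω ω', (S.F k).μ ω ≠ 0 → (S.F k).μ ω' ≠ 0 →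
      (S.F k).Z ω ω' → H.VB k ω = H.VB k ω' → (P.D.y i).1 k ω = (P.D.y i).1 k ω' := by
    rw [Filter.eventually_all_finset]
    intro i _
    exact P.ly i
  have hy0 : ∀ᶠ k in UF, ∀ i ∈ (Finset.univ : Finset (Fin 2)), ∀ ω ω', (S.F k).μ ω ≠ 0 → (S.F k).μ ω' ≠ 0 →
      (S.F k).Z ω ω' → H.K s k ω = H.K s k ω' → (P.D.y0 i).1 k ω = (P.D.y0 i).1 k ω' := by
    rw [Filter.eventually_all_finset]
    intro i _
    exact P.ly0 i
  filter_upwards [P.lt, P.lt0, P.lz, hy, hy0] with k h1 h2 h3 h4 h5 ω ω' a b c e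
  have eB : H.VB k ω = H.VB k ω' := congrArg Prod.fst e
  have eK : H.K s k ω = H.K s k ω' := congrArg Prod.snd e
  refine ⟨by rw [P.hV]; exact eK, ?_⟩
  have et : (P.D.ct h).1 k ω = (P.D.ct h).1 k ω' := by
    unfold CT.ct zo
    show (if |P.D.t.1 k ω - P.D.t0.1 k ω| ≤ P.D.L k * S.dl s k then (P.D.t.1 k ω - P.D.t0.1 k ω) / S.dl s k else 0) =
      (if |P.D.t.1 k ω' - P.D.t0.1 k ω'| ≤ P.D.L k * S.dl s k then (P.D.t.1 k ω' - P.D.t0.1 k ω') / S.dl s k else 0)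
    rw [h1 ω ω' a b c eB, h2 ω ω' a b c eK]
  have ey : ∀ i, (P.D.cy h i).1 k ω = (P.D.cy h i).1 k ω' := by
    intro i
    unfold CT.cy zo
    show (if |(P.D.y i).1 k ω - (P.D.y0 i).1 k ω| ≤ P.D.L k * S.dl s k then
        ((P.D.y i).1 k ω - (P.D.y0 i).1 k ω) / S.dl s k else 0) =
      (if |(P.D.y i).1 k ω' - (P.D.y0 i).1 k ω'| ≤ P.D.L k * S.dl s k then
        ((P.D.y i).1 k ω' - (P.D.y0 i).1 k ω') / S.dl s k else 0)
    rw [h4 i (Finset.mem_univ i) ω ω' a b c eB, h5 i (Finset.mem_univ i) ω ω' a b c eK]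
  have ez : (P.D.cz h).1 k ω = (P.D.cz h).1 k ω' := by
    show S.dl (1 - 2 * s - w * s) k * P.D.z.1 k ω = S.dl (1 - 2 * s - w * s) k * P.D.z.1 k ω'
    rw [h3 ω ω' a b c eB]
  have ev : ((P.D.trz h).pv).v k ω = ((P.D.trz h).pv).v k ω' := by
    funext i
    show TR.ev ((Fin.snoc (P.D.trz h).q (P.D.trz h).z : Fin (2 + 1 + 1) → TR (P.D.sp h)) i) k ω =
      TR.ev ((Fin.snoc (P.D.trz h).q (P.D.trz h).z : Fin (2 + 1 + 1) → TR (P.D.sp h)) i) k ω'
    rw [P.D.trz_q h, P.D.trz_z h]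
    induction i using Fin.lastCases with
    | last =>
      rw [Fin.snoc_last]
      exact ez
    | cast i =>
      rw [Fin.snoc_castSucc]
      induction i using Fin.cases with
      | zero => exact et
      | succ i => exact ey i
  show cell _ (((P.D.trz h).pv).v k ω) = cell _ (((P.D.trz h).pv).v k ω')
  rw [ev]

end Rp

end

end Pool.Agent.Helper69.BF
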