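import Pool.Agent.Helper69.BF.Bsh

/-! The agreement condition over the label, richness, bushes in general position: the corner in the window `s` is a
flat corner (`CorH`), for bushes with any number of lines. -/

set_option autoImplicit false

namespace Pool.Agent.Helper69.BF

open Finset Filter Topology Pool.Agent.Helper69.RK Pool.Agent.Helper31.EC Pool.Agent.Helper82.TP
open Pool.Agent.Helper60.CS Pool.Agent.Helper25.EC Pool.Agent.Helper31.NSB Pool.Agent.Helper24.T3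
open Pool.Agent.Helper38.NS Pool.Agent.Helper38.NS.FB Pool.Agent.Helper99.CC Pool.Agent.Helper99.LF
open Pool.Agent.Helper50.CV (cbOf cbOf_fQ cbOf_z rlOf)
open Pool.Agent.Helper40.NSK
open Pool.Agent.Helper57.TA (sc)

noncomputable section

open Sp QS

/-- a coordinate of a vector is an exact function of its cells -/
theorem cor_Fn {T : Sp} {m : ℕ} (y : T.VV m) (i : Fin m) :
    QS.mk (TR.cor y i) ∈ Fn (α := fun _ => Fin m → ℤ) (y.cellv 1) := by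
  refine ⟨TR.cor (y.fl 1 zero_le_one) i, ?_, ?_⟩
  · intro k ω ω' hV _
    show (⌊y.v k ω i / T.dl 1 k⌋ : ℝ) * T.dl 1 k = ⌊y.v k ω' i / T.dl 1 k⌋ * T.dl 1 k
    have h1 : ⌊y.v k ω i / T.dl 1 k⌋ = ⌊y.v k ω' i / T.dl 1 k⌋ := congrFun hV i
    rw [h1]
  · rw [QS.mk_eq]
    refine ⟨fun _ _ => True, fun _ => 1, Typ_true, T.Sub_const zero_le_one, Eventually.of_forall fun k ω _ _ => ?_⟩
    rw [one_mul, abs_sub_comm]
    have h1 := VV.fl_sub y 1 zero_le_one k ω i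
    show |y.v k ω i - (y.fl 1 zero_le_one).v k ω i| ≤ _
    rw [abs_of_nonneg h1.1]
    exact h1.2.le

/-- the bush in general position, base of dimension two -/
theorem bush_gen {T : Sp} (c : FC T 2 1) {α β : ℕ → Type} (VB : ∀ k, (T.F k).Ω → α k) (VA : ∀ k, (T.F k).Ω → β k)
    (hVB : Bdd VB) (hio : io VB = vd c.fB 1) (hfB : ∀ l, c.fB l ∈ Fn VB) (ha : ∀ i, c.a i ∈ Fn VA)
    (hx : ∀ i, c.x i ∈ Fn VA) (hag : AgC VB VA) (hR : Rich c.x (vd c.fB 1)) (hind : I (vd c.x 1) (vd c.fB 1) ⊥ = 0)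
    (hq : Rl (cbOf c).fb.q ⊥) (N : ℕ) : ∃ w : QS.CQ T c.fB N, ∀ e : Fin (2 + 1) → Fin (N + 1), Function.Injective e →
      IsUnit (Matrix.of fun i j => (w.p (e i)).qs (c.v j)).det := by
  have hfQ : (cbOf c).fb.fQ = c.fB := cbOf_fQ c
  have hB : vd c.fB 1 = (cbOf c).fb.iT ⊔ ((cbOf c).fb.iY ⊔ (cbOf c).fb.iZ) := by
    rw [← hfQ, FB.vd_fQ]
  rw [hB] at hR hind
  have hGP := gp_can (s := (cbOf c).fb) VB VA hVB (hio.trans hB) (by rw [hfQ]; exact hfB) ha hx hag hR hind hq N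
  refine ⟨toCQ (can VB hVB N) hVB c.fB hfB hio.symm, fun e he => ?_⟩
  have h1 := hGP (e 0) (e 1) (e 2) (he.ne (by decide)) (he.ne (by decide)) (he.ne (by decide))
  have h2 : (Matrix.of fun i j => ((can VB hVB N).p (e i)).qs (c.v j)).det =
      dt c.x ((can VB hVB N).p (e 0)) ((can VB hVB N).p (e 1)) ((can VB hVB N).p (e 2)) := by
    have e0 : ∀ i, (Matrix.of fun i j => ((can VB hVB N).p (e i)).qs (c.v j)) i 0 = 1 :=
      fun i => map_one ((can VB hVB N).p (e i)).qs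
    have e1 : ∀ i, (Matrix.of fun i j => ((can VB hVB N).p (e i)).qs (c.v j)) i 1 =
        ((can VB hVB N).p (e i)).qs (c.x 0) := fun i => rfl
    have e2 : ∀ i, (Matrix.of fun i j => ((can VB hVB N).p (e i)).qs (c.v j)) i 2 =
        ((can VB hVB N).p (e i)).qs (c.x 1) := fun i => rfl
    rw [Matrix.det_fin_three, e0, e0, e0, e1, e1, e1, e2, e2, e2]
    unfold dt
    ring
  have h3 : IsUnit (Matrix.of fun i j => ((can VB hVB N).p (e i)).qs (c.v j)).det := by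
    rw [h2]
    exact h1
  exact h3

variable {S : Sp} {H : RD S} {f : FR S} {w ρ s : ℝ} {Sc : Set ℝ}

theorem rich_κ (cc : CC H f 1 w ρ Sc) (hs : s ∈ Sc) (T : Sp) (p : Pj T S) (E : ∀ k, (T.F k).Ω → Prop)
    (hE : 0 < ul (T.pr E)) (r : ℝ) (h0 : 0 < r) (h1 : r ≤ 1) :
    0 < Pool.Agent.Helper31.EC.h (restL E hE (p.map (dg H.x r))) (restL E hE (p.map (H.κ s ⊔ H.B))) := by
  have e1 := cc.T1 s hs
  rw [sup_comm] at e1
  have e2 := (I_decomp e1).2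
  rw [sup_bot_eq] at e2
  have e0 : I (dg H.x r) (H.κ s) H.B = 0 := I_zero_mono e2 ((dg_mono H.x h1).trans le_sup_left) le_sup_left
  have e3 := p.I_map (dg H.x r) (H.κ s) H.B
  rw [e0] at e3
  have e4 := I_rest_zero E hE e3
  rw [I_zero_iff_h, ← restL_sup, ← p.map_sup] at e4
  rw [e4]
  obtain ⟨g, hg, hr⟩ := cc.rich
  exact lt_of_lt_of_le (mul_pos hg h0) (hr T p E hE r h0.le h1)

namespace Rp

variable (P : Rp H f s) (h : Scs s (w * s))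

theorem va_fun : ∀ᶠ k in UF, ∀ ω ω', (S.F k).μ ω ≠ 0 → (S.F k).μ ω' ≠ 0 → (S.F k).Z ω ω' →
    VAs H s k ω = VAs H s k ω' → P.D.V.1 k ω ω' ∧ VAs H s k ω = VAs H s k ω' :=
  Eventually.of_forall fun k ω ω' _ _ _ e => ⟨by rw [P.hV]; exact congrArg Prod.snd e, e⟩

/-- AGREEMENT over the label -/
theorem agC (cc : CC H f 1 w ρ Sc) (hs : s ∈ Sc) : AgC (S := P.D.sp h) (P.pc h) (VAs H s) := by
  intro E hE g g' r h0 h1 hg hg' hrel
  obtain ⟨gB, lB, eB⟩ := lit_cgh_back P.D.V.1 (1 - s) h.e0 h.e1 (P.pc_fun h) (lit_of_Fn hg)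
  obtain ⟨gA, lA, eA⟩ := lit_cgh_back P.D.V.1 (1 - s) h.e0 h.e1 P.va_fun (lit_of_Fn hg')
  have hr : (1 - s) * r ≤ 1 := by nlinarith [h.e0, h.e1]
  have h2 : QS.rest (S := S) E hE (gA - gB) ∈ Id (S.rest E) ((1 - s) * r) := by
    rw [← cgh_rest P.D.V.1 (1 - s) h.e0 h.e1 E hE _ h1]
    have h3 : cgh P.D.V.1 (1 - s) h.e0 h.e1 (gA - gB) = -(g - g') := by
      rw [map_sub, eA, eB]
      ring
    rw [h3, map_neg]
    exact (Id _ r).neg_mem hrel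
  have h4 := cc.agr s hs s hs le_rfl E hE gA gB ((1 - s) * r) (mul_pos h.e0 h0) hr lA lB h2
  rw [QS.rest_dg, ← eB, cgh_dg _ _ _ _ _ h1]
  apply rest_chg_bot
  have h5 : cl P.D.V = H.κ s := P.κ_eq
  rw [h5]
  exact h4

theorem iP_le (hh : P.D.Hyp s (w * s) ρ) :
    dg (fc (P.D.trz h)).t 1 ⊔ (vd (fc (P.D.trz h)).y 1 ⊔ dg (fc (P.D.trz h)).z 1) ≤
      chgL P.D.V.1 (1 - s) h.e0 H.B := by
  rw [CT.dt1 h hh, CT.dy1 h hh, CT.dzu h le_rfl, ← chgL_sup, ← chgL_sup]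
  apply chgL_mono
  rw [← P.B_eq]
  have h1 : dg P.D.qz ((1 - s) * 1 - (1 - 2 * s - w * s)) ≤ dg P.D.qz 1 := by
    apply dg_mono
    linarith [h.hs, h.s0]
  unfold CT.iMr
  order

theorem pc_io : io (S := P.D.sp h) (P.pc h) = vd (fc (P.D.trz h)).fB 1 := by
  have h1 := (P.D.trz h).pv_dg
  rw [← cbOf_fc, cbOf_fQ] at h1
  rw [← h1]
  rfl

theorem fB_Fn (l : Fin (2 + 1) ⊕ Unit) : (fc (P.D.trz h)).fB l ∈ Fn (S := P.D.sp h) (P.pc h) := by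
  rcases l with i | i
  · have h1 : (fc (P.D.trz h)).fB (Sum.inl i) = QS.mk (TR.cor (P.D.trz h).pv i.castSucc) := by
      show (fc (P.D.trz h)).q i = _
      rw [fc_q]
      congr 1
      unfold FTC.pv
      rw [TR.cor_vec, Fin.snoc_castSucc]
    rw [h1]
    exact cor_Fn _ _
  · have h1 : (fc (P.D.trz h)).fB (Sum.inr i) = QS.mk (TR.cor (P.D.trz h).pv (Fin.last (2 + 1))) := by
      show (fc (P.D.trz h)).z = _
      rw [fc_z]
      congr 1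
    rw [h1]
    exact cor_Fn _ _

theorem fB_le (hh : P.D.Hyp s (w * s) ρ) : vd (fc (P.D.trz h)).fB 1 ≤ chgL P.D.V.1 (1 - s) h.e0 H.B := by
  have h1 := P.iP_le h hh
  rw [← cbOf_fQ, FB.vd_fQ]
  have h2 : (cbOf (fc (P.D.trz h))).fb.iZ = dg (fc (P.D.trz h)).z 1 := by
    show dg (cbOf (fc (P.D.trz h))).fb.z 1 = _
    rw [cbOf_z]
  rw [h2]
  exact h1

theorem rich' (cc : CC H f 1 w ρ Sc) (hs : s ∈ Sc) (hh : P.D.Hyp s (w * s) ρ) :
    Rich (fc (P.D.trz h)).x (vd (fc (P.D.trz h)).fB 1) := by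
  intro T p E hE r h0 h1 hcon
  have hr : (1 - s) * r ≤ 1 := by nlinarith [h.e0, h.e1]
  have k1 : chgL P.D.V.1 (1 - s) h.e0 (dg H.x ((1 - s) * r)) ≤ vd (fc (P.D.trz h)).x r := by
    have k2 : dg ((fc (P.D.trz h)).x 0) r = chgL P.D.V.1 (1 - s) h.e0 (dg H.x ((1 - s) * r)) := by
      show dg (QS.mk (P.D.cx h 0)) r = _
      rw [dg_mk _ h1, CT.cx_dg, ← P.qx0_eq, CT.qx, dg_mk _ hr]
    rw [← k2]
    exact dg_le_vd _ _ _
  have k3 : restL E hE (p.map (chgL P.D.V.1 (1 - s) h.e0 (dg H.x ((1 - s) * r)))) ≤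
      restL E hE (p.map (chgL P.D.V.1 (1 - s) h.e0 H.B)) :=
    (restL_mono E hE (p.map_mono k1)).trans (hcon.trans (restL_mono E hE (p.map_mono (P.fB_le h hh))))
  have k4 := h_zero k3
  rw [un_h] at k4
  have k5 := rich_κ cc hs (unS p) (unP p) E hE ((1 - s) * r) (mul_pos h.e0 h0) hr
  have k6 : H.κ s ⊔ H.B = H.B ⊔ cl P.D.V := by
    rw [sup_comm]
    congr 1
    exact P.κ_eq.symm
  rw [k6] at k5
  have k7 := h.e0
  rw [div_eq_zero_iff] at k4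
  rcases k4 with k4 | k4
  · rw [k4] at k5
    exact lt_irrefl _ k5
  · linarith

theorem ind' (hx : I (dg H.x 1 ⊔ dg H.F 1) (H.κ s ⊔ H.B) ⊥ = 0) (hh : P.D.Hyp s (w * s) ρ) :
    I (vd (fc (P.D.trz h)).x 1) (vd (fc (P.D.trz h)).fB 1) ⊥ = 0 := by
  have k1 : vd (fc (P.D.trz h)).x 1 ≤ chgL P.D.V.1 (1 - s) h.e0 (dg H.x 1 ⊔ dg H.F 1) := by
    refine (CT.dx_le h).trans ?_
    rw [vd_two, P.qx0_eq, P.qx1_eq]
  have k2 := (I_decomp hx).2
  rw [sup_bot_eq] at k2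
  have k3 : I (chgL P.D.V.1 (1 - s) h.e0 (dg H.x 1 ⊔ dg H.F 1)) (chgL P.D.V.1 (1 - s) h.e0 H.B)
      (chgL P.D.V.1 (1 - s) h.e0 (⊥ : S.L)) = 0 := by
    rw [I_chgL_inf, bot_sup_eq]
    have k4 : cl P.D.V = H.κ s := P.κ_eq
    rw [k4, k2, zero_div]
  exact I_zero_mono k3 (k1.trans le_sup_left) ((P.fB_le h hh).trans le_sup_left)

theorem rl' (hh : P.D.Hyp s (w * s) ρ) : Rl (cbOf (fc (P.D.trz h))).fb.q ⊥ := by
  apply rlOf (N := 0) (ρ := ρ)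
  apply CT.corH h hh
  obtain ⟨w'⟩ := exists_CQ (fc (P.D.trz h)).fB 0
  refine ⟨w', fun e he => ?_⟩
  have h1 : e 0 = e 1 := Fin.ext (by omega)
  exact absurd (he h1) (by decide)

/-- the bush -/
theorem bush (cc : CC H f 1 w ρ Sc) (lf : LitF H) (hs : s ∈ Sc) (hx : I (dg H.x 1 ⊔ dg H.F 1) (H.κ s ⊔ H.B) ⊥ = 0)
    (hh : P.D.Hyp s (w * s) ρ) (N : ℕ) :
    ∃ w' : QS.CQ (P.D.sp h) (fc (P.D.trz h)).fB N, ∀ e : Fin (2 + 1) → Fin (N + 1), Function.Injective e →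
      IsUnit (Matrix.of fun i j => (w'.p (e i)).qs ((fc (P.D.trz h)).v j)).det :=
  bush_gen (T := P.D.sp h) (fc (P.D.trz h)) (P.pc h) (VAs H s) (P.pc_bdd h) (P.pc_io h) (P.fB_Fn h)
    (fun i => Fn_of_lit (P.lit_a h lf i)) (fun i => Fn_of_lit (P.lit_x h lf i)) (P.agC h cc hs) (P.rich' h cc hs hh)
    (P.ind' h hx hh) (P.rl' h hh) N

/-- THE CORNER IN THE WINDOW `s` IS A FLAT CORNER -/
theorem corN (cc : CC H f 1 w ρ Sc) (lf : LitF H) (hs : s ∈ Sc) (h0 : 0 < s) (h1 : (w + 2) * s ≤ 1)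
    (hx : I (dg H.x 1 ⊔ dg H.F 1) (H.κ s ⊔ H.B) ⊥ = 0) (N : ℕ) : CorH (fc (P.D.trz h)) N ρ 0 :=
  CT.corH h (P.hyp cc hs h1 h0 hx) (P.bush h cc lf hs hx (P.hyp cc hs h1 h0 hx) N)

end Rp

end

end Pool.Agent.Helper69.BF
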