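import Pool.Agent.Helper69.BF.Unc
import Pool.Agent.Helper60.CS.Zo
import Pool.Agent.Helper97.SL.Qs

/-! Functions to full precision in the changed space; the slope of a straight function is known to the base line, the
time and the value. -/

set_option autoImplicit false

namespace Pool.Agent.Helper69.BF

open Finset Filter Topology Pool.Agent.Helper69.RK Pool.Agent.Helper31.EC Pool.Agent.Helper60.CS

noncomputable section

open Sp QS

variable {S : Sp} (Z : ∀ k, Setoid (S.F k).Ω) (e : ℝ) (he : 0 < e)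

theorem ag_trc (he1 : e ≤ 1) {f g : TR S} (h : TR.Ag 1 f g) : TR.Ag 1 (trc Z e he f) (trc Z e he g) := by
  obtain ⟨E, K, hE, hK, hh⟩ := h
  refine ⟨E, K, typ_chg Z e he hE, chg_sub Z e he hK, ?_⟩
  filter_upwards [hh, hK.1] with k hk hK0 ω a b
  refine (hk ω a b).trans ?_
  rw [chg_dl]
  exact mul_le_mul_of_nonneg_left (S.dl_anti (by linarith) k) hK0

/-- functions in the changed space, depth at most `1` -/
def cgh (he1 : e ≤ 1) : QS S →+* QS (S.chg Z e he) :=
  Ideal.Quotient.lift (TR.Idl S) ((QS.mk (S := S.chg Z e he)).comp (trc Z e he)) (by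
    intro f hf
    have h1 : TR.Ag 1 (trc Z e he f) (trc Z e he 0) := ag_trc Z e he he1 hf
    show QS.mk (trc Z e he f) = 0
    rw [map_zero] at h1
    rw [← map_zero QS.mk]
    exact QS.mk_eq.mpr h1)

theorem cgh_mk (he1 : e ≤ 1) (f : TR S) : cgh Z e he he1 (QS.mk f) = QS.mk (trc Z e he f) := rfl

theorem cgh_dg (he1 : e ≤ 1) (f : QS S) {r : ℝ} (hr : r ≤ 1) :
    dg (cgh Z e he he1 f) r = chgL Z e he (dg f (e * r)) := by
  obtain ⟨f, rfl⟩ := mk_surj f
  have h1 : e * r ≤ 1 := by nlinarith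
  rw [cgh_mk, dg_mk _ hr, dg_mk _ h1, trc_dg]

/-! ### slopes -/

theorem exists_inf (A : S.L) : ∃ V : S.Inf, cl V = A := Quotient.exists_rep A

/-- SSL FOR STRAIGHT LINES: the slope of `z = b + t v` up to level `g` is a function of the line `A`, the time and
`z`, if the time is full and independent of `(b, v)` over `A` and `z` is unsaturated over `A` and the time -/
theorem slope_known {t z b v : QS S} {A : S.L} {g ρ : ℝ} (hρ : 0 < ρ) (hg : 0 < g) (hg1 : g ≤ 1)
    (hz : z = b + t * v) (ht : g ≤ h (dg t g) A) (hI : I (dg b g ⊔ dg v g) (dg t 1) A = 0)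
    (hU : ∀ (T : Sp) (p : Pj T S) (E : ∀ k, (T.F k).Ω → Prop) (hE : 0 < ul (T.pr E)) (a b : ℝ), 0 ≤ a → a ≤ b →
      b ≤ g → h (Sp.restL E hE (p.map (QS.dg z b))) (Sp.restL E hE (p.map (QS.dg z a ⊔ (A ⊔ dg t 1)))) ≤
        (1 - ρ) * (b - a)) :
    dg v g ≤ A ⊔ (dg t g ⊔ dg z g) := by
  obtain ⟨V, rfl⟩ := exists_inf A
  obtain ⟨F, hF⟩ : ∃ F, F = cgh (S := S) V.1 1 one_pos le_rfl := ⟨_, rfl⟩
  have hd : ∀ (f : QS S) {r : ℝ}, r ≤ 1 → dg (F f) r = chgL V.1 1 one_pos (dg f r) := by
    intro f r hr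
    rw [hF, cgh_dg _ _ _ _ f hr, one_mul]
  obtain ⟨q, hq⟩ : ∃ q : MvPolynomial (Fin (0 + 1)) (QS (S.chg V.1 1 one_pos)),
    q = MvPolynomial.C (F b) + MvPolynomial.C (F v) * MvPolynomial.X 0 := ⟨_, rfl⟩
  have hcq : ∀ m, QS.dg (q.coeff m) g ≤ chgL V.1 1 one_pos (dg b g ⊔ dg v g) := by
    intro m
    have h1 : q.coeff m ∈ QS.Kn (S.chg V.1 1 one_pos) g hg1 (chgL V.1 1 one_pos (dg b g ⊔ dg v g)) := by
      rw [hq, MvPolynomial.coeff_add, MvPolynomial.coeff_C, MvPolynomial.coeff_C_mul, MvPolynomial.coeff_X']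
      apply Subring.add_mem
      · split_ifs
        · rw [QS.mem_Kn, hd b hg1]
          exact chgL_mono _ _ _ le_sup_left
        · exact Subring.zero_mem _
      · apply Subring.mul_mem
        · rw [QS.mem_Kn, hd v hg1]
          exact chgL_mono _ _ _ le_sup_right
        · split_ifs
          · exact Subring.one_mem _
          · exact Subring.zero_mem _
    exact h1
  have hv0 : QS.vd (fun _ : Fin (0 + 1) => F t) g = chgL V.1 1 one_pos (dg t g) := by
    apply le_antisymm
    · rw [QS.vd_le]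
      intro _
      exact (hd t hg1).le
    · rw [← hd t hg1]
      exact QS.dg_le_vd (fun _ : Fin (0 + 1) => F t) g 0
  have h1 := Pool.Agent.Helper97.SL.ssl_q_known (fun _ : Fin (0 + 1) => F t) (F z) q
    (chgL V.1 1 one_pos (dg b g ⊔ dg v g)) (chgL V.1 1 one_pos (dg t 1)) 0 g ρ hρ le_rfl hg hg1
    (by
      rw [hv0]
      exact chgL_mono _ _ _ (dg_mono t hg1))
    (by
      have h2 : MvPolynomial.eval (fun _ : Fin (0 + 1) => F t) q = F z := by
        rw [hq, map_add, map_mul, MvPolynomial.eval_C, MvPolynomial.eval_C, MvPolynomial.eval_X, hz, map_add, map_mul]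
        ring
      rw [h2, sub_self]
      exact (QS.Id _ g).zero_mem)
    (by
      rw [hv0, H_chgL_inf, div_one]
      push_cast
      linarith)
    hcq
    (by
      rw [← chgL_bot V.1 1 one_pos, I_chgL_inf, bot_sup_eq, hI, zero_div])
    (by
      intro T p E hE a c h2 h3 h4
      have h5 := hU _ (unP p) E hE a c h2 h3 h4
      rw [hd z (h4.trans hg1), hd z (h3.trans (h4.trans hg1)), ← chgL_sup, un_h, div_one]
      refine le_trans (le_of_eq ?_) h5
      congr 3
      rw [sup_assoc, sup_comm (dg t 1)])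
    (Finsupp.single 0 1)
  have hm : q.coeff (Finsupp.single 0 1) = F v := by
    rw [hq, MvPolynomial.coeff_add, MvPolynomial.coeff_C, MvPolynomial.coeff_C_mul, MvPolynomial.coeff_X']
    rw [if_neg (by
      intro h
      have := DFunLike.congr_fun h 0
      simp at this), if_pos rfl]
    ring
  rw [hm, hv0, hd v hg1, hd z hg1, ← chgL_sup, chgL_le_inf, sup_comm] at h1
  exact h1

end

end Pool.Agent.Helper69.BF
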