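import Pool.Agent.Helper69.BF.Cgh
import Pool.Agent.Helper99.LF.St

/-! The corner over a flat base of weight one over a label `V` of the window `s`: base point blown up by `2 ^ (s n)`
around functions `t0, y0` of `V`, top coordinate scaled down by `2 ^ (-(1 - 2 s - g) n)`. Digits of its functions. -/

set_option autoImplicit false

namespace Pool.Agent.Helper69.BF

open Finset Filter Topology Pool.Agent.Helper69.RK Pool.Agent.Helper31.EC Pool.Agent.Helper60.CS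
open Pool.Agent.Helper99.CC

noncomputable section

open Sp QS

variable {S : Sp}

/-- the constant `2 ^ (-r n)`, `0 ≤ r` -/
def sct (S : Sp) (r : ℝ) (hr : 0 ≤ r) : TR S := ⟨fun k _ => S.dl r k, fun _ => 1, S.Sub_const zero_le_one,
  Eventually.of_forall fun k ω _ => by
    rw [abs_of_pos (S.dl_pos r k)]
    have h1 := S.dl_anti hr k
    rwa [S.dl_zero] at h1⟩

theorem sct_ev (r : ℝ) (hr : 0 ≤ r) (k : ℕ) (ω : (S.F k).Ω) : TR.ev (sct S r hr) k ω = S.dl r k := rfl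

theorem sct_dg (f : TR S) {r : ℝ} (hr : 0 ≤ r) (u : ℝ) : TR.dg (sct S r hr * f) u = TR.dg f (u - r) := by
  have hd : ∀ k, S.dl u k = S.dl r k * S.dl (u - r) k := by
    intro k
    rw [← S.dl_add]
    congr 1
    ring
  have key : ∀ k ω ω', |TR.ev (sct S r hr * f) k ω - TR.ev (sct S r hr * f) k ω'| =
      S.dl r k * |TR.ev f k ω - TR.ev f k ω'| := by
    intro k ω ω'
    rw [TR.ev_mul, TR.ev_mul, sct_ev, sct_ev, ← mul_sub, abs_mul, abs_of_pos (S.dl_pos r k)]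
  apply le_antisymm
  · apply VV.dg_le_dg _ _ _ _ (fun _ _ => True) Typ_true (fun _ => 1) (S.Sub_const zero_le_one)
    refine Eventually.of_forall fun k ω ω' _ _ _ _ _ g _ => ?_
    have h1 : |TR.ev f k ω - TR.ev f k ω'| ≤ S.dl (u - r) k := g 0
    show |TR.ev (sct S r hr * f) k ω - TR.ev (sct S r hr * f) k ω'| ≤ _
    rw [key, hd, one_mul]
    exact mul_le_mul_of_nonneg_left h1 (S.dl_pos r k).le
  · apply VV.dg_le_dg _ _ _ _ (fun _ _ => True) Typ_true (fun _ => 1) (S.Sub_const zero_le_one)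
    refine Eventually.of_forall fun k ω ω' _ _ _ _ _ g _ => ?_
    have h1 : |TR.ev (sct S r hr * f) k ω - TR.ev (sct S r hr * f) k ω'| ≤ S.dl u k := g 0
    show |TR.ev f k ω - TR.ev f k ω'| ≤ _
    rw [key, hd] at h1
    rw [one_mul]
    exact le_of_mul_le_mul_left h1 (S.dl_pos r k)

/-- tame data of the corner: coordinates `t`, `y` with velocities `x`, top `z` with velocity `v`; a label `V`, functions
`t0`, `y0` of it and a cut-off `L` -/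
structure CT (S : Sp) (d : ℕ) where
  V : S.Inf
  t : TR S
  y : Fin d → TR S
  x : Fin d → TR S
  z : TR S
  v : TR S
  t0 : TR S
  y0 : Fin d → TR S
  L : ℕ → ℝ
  hL : S.Sub L

/-- the scales: window `s`, known level `g` of the top coordinate -/
structure Scs (s g : ℝ) : Prop where
  s0 : 0 < s
  g0 : 0 < g
  hs : g + 2 * s ≤ 1

namespace Scs

variable {s g : ℝ} (h : Scs s g)
include h

theorem e0 : 0 < 1 - s := by linarith [h.s0, h.g0, h.hs]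
theorem e1 : 1 - s ≤ 1 := by linarith [h.s0]
theorem r0 : 0 ≤ 1 - 2 * s - g := by linarith [h.hs]
theorem r1 : 0 ≤ 1 - s - g := by linarith [h.hs, h.s0]

end Scs

namespace CT

variable {d : ℕ} (D : CT S d) {s g : ℝ} (h : Scs s g)

/-- the corner space: base `V`, depth `1 - s` -/
abbrev sp : Sp := S.chg D.V.1 (1 - s) h.e0

/-- time -/
def ct : TR (D.sp h) := zo D.V.1 (1 - s) h.e0 D.t (fun k ω => D.t0.1 k ω) s D.L D.hL
/-- base point -/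
def cy (i : Fin d) : TR (D.sp h) := zo D.V.1 (1 - s) h.e0 (D.y i) (fun k ω => (D.y0 i).1 k ω) s D.L D.hL
/-- velocity -/
def cx (i : Fin d) : TR (D.sp h) := trc D.V.1 (1 - s) h.e0 (D.x i)
/-- top coordinate -/
def cz : TR (D.sp h) := trc D.V.1 (1 - s) h.e0 (sct S (1 - 2 * s - g) h.r0 * D.z)
/-- slope -/
def cv : TR (D.sp h) := trc D.V.1 (1 - s) h.e0 (sct S (1 - s - g) h.r1 * D.v)

/-- THE CORNER -/
def trz : FTC (D.sp h) d 1 where
  t := D.ct h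
  a := fun i => D.cy h i - D.ct h * D.cx h i
  x := D.cx h
  c := Fin.cons (D.cz h - D.cv h * D.ct h) fun _ => D.cv h

theorem trz_q : (D.trz h).q = Fin.cons (D.ct h) (D.cy h) := by
  unfold FTC.q
  congr 1
  funext i
  show D.cy h i - D.ct h * D.cx h i + D.ct h * D.cx h i = _
  ring

theorem trz_z : (D.trz h).z = D.cz h := by
  unfold FTC.z
  rw [Fin.sum_univ_two]
  show (D.cz h - D.cv h * D.ct h) * D.ct h ^ 0 + D.cv h * D.ct h ^ 1 = _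
  ring

/-- intercept of the base line -/
def aT (i : Fin d) : TR S := D.y i - D.t * D.x i
/-- intercept of the top coordinate -/
def bT : TR S := D.z - D.t * D.v

/-- hypotheses of literal type -/
structure Lt (s : ℝ) : Prop where
  lt : ∀ᶠ k in UF, ∀ ω ω', (S.F k).μ ω ≠ 0 → (S.F k).μ ω' ≠ 0 → (D.V.1 k ⊓ (S.F k).Z) ω ω' → D.t0.1 k ω = D.t0.1 k ω'
  ly : ∀ i, ∀ᶠ k in UF, ∀ ω ω', (S.F k).μ ω ≠ 0 → (S.F k).μ ω' ≠ 0 → (D.V.1 k ⊓ (S.F k).Z) ω ω' →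
    (D.y0 i).1 k ω = (D.y0 i).1 k ω'
  ft : Typ (S := S) (fun k ω => |D.t.1 k ω - D.t0.1 k ω| ≤ D.L k * S.dl s k)
  fy : ∀ i, Typ (S := S) (fun k ω => |(D.y i).1 k ω - (D.y0 i).1 k ω| ≤ D.L k * S.dl s k)

variable {D}

theorem ct_dg (hl : D.Lt s) (u : ℝ) : TR.dg (D.ct h) u = chgL D.V.1 (1 - s) h.e0 (TR.dg D.t (s + (1 - s) * u)) :=
  zo_dg _ _ _ D.hL hl.ft hl.lt u

theorem cy_dg (hl : D.Lt s) (i : Fin d) (u : ℝ) :
    TR.dg (D.cy h i) u = chgL D.V.1 (1 - s) h.e0 (TR.dg (D.y i) (s + (1 - s) * u)) :=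
  zo_dg _ _ _ D.hL (hl.fy i) (hl.ly i) u

theorem cx_dg (i : Fin d) (u : ℝ) : TR.dg (D.cx h i) u = chgL D.V.1 (1 - s) h.e0 (TR.dg (D.x i) ((1 - s) * u)) :=
  trc_dg _ _ _ _ _

theorem cz_dg (u : ℝ) : TR.dg (D.cz h) u = chgL D.V.1 (1 - s) h.e0 (TR.dg D.z ((1 - s) * u - (1 - 2 * s - g))) := by
  unfold cz
  rw [trc_dg, sct_dg]

theorem cv_dg (u : ℝ) : TR.dg (D.cv h) u = chgL D.V.1 (1 - s) h.e0 (TR.dg D.v ((1 - s) * u - (1 - s - g))) := by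
  unfold cv
  rw [trc_dg, sct_dg]

/-- the blown up coordinates on a typical event -/
theorem typ_t (hl : D.Lt s) : Typ (S := D.sp h) (fun k ω => D.t.1 k ω = D.t0.1 k ω + S.dl s k * (D.ct h).1 k ω) :=
  zo_typ D.V.1 (1 - s) h.e0 D.hL hl.ft

theorem typ_y (hl : D.Lt s) (i : Fin d) :
    Typ (S := D.sp h) (fun k ω => (D.y i).1 k ω = (D.y0 i).1 k ω + S.dl s k * (D.cy h i).1 k ω) :=
  zo_typ D.V.1 (1 - s) h.e0 D.hL (hl.fy i)

theorem aux_ld {a b c K : ℝ} (hc : 0 < c) (h : |c * a - c * b| ≤ c * K) : |a - b| ≤ K := by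
  rw [← mul_sub, abs_mul, abs_of_pos hc] at h
  exact le_of_mul_le_mul_left h hc

/-- digits of the intercept of the base line -/
theorem ca_dg_le (hl : D.Lt s) (i : Fin d) : TR.dg (D.cy h i - D.ct h * D.cx h i) 1 ≤
    chgL D.V.1 (1 - s) h.e0 (TR.dg (D.aT i) 1 ⊔ TR.dg (D.x i) 1) := by
  have he : (1 - s) ≠ 0 := h.e0.ne'
  have e1 : ∀ f : TR S, chgL D.V.1 (1 - s) h.e0 (TR.dg f 1) = TR.dg (trc D.V.1 (1 - s) h.e0 f) (1 / (1 - s)) := by
    intro f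
    rw [trc_dg, mul_one_div_cancel he]
  rw [chgL_sup, e1, e1]
  obtain ⟨K, hK, hKb⟩ := D.t0.2
  apply VV.dg_le_dg2 _ _ _ _ _ _ _ ((D.typ_t h hl).and (D.typ_y h hl i)) (fun k => 1 + K k)
    (chg_sub _ _ _ ((S.Sub_const zero_le_one).add hK))
  filter_upwards [hl.lt, hl.ly i, hKb, hK.1] with k h1 h2 h3 h3' ω ω' a b e e' q g g' _
  have ga : |TR.ev (D.aT i) k ω - TR.ev (D.aT i) k ω'| ≤ (D.sp h).dl (1 / (1 - s)) k := g 0
  have gx : |TR.ev (D.x i) k ω - TR.ev (D.x i) k ω'| ≤ (D.sp h).dl (1 / (1 - s)) k := g' 0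
  have ed : (D.sp h).dl (1 / (1 - s)) k = S.dl 1 k := by
    rw [chg_dl, mul_one_div_cancel he]
  have ed' : (D.sp h).dl 1 k = S.dl (1 - s) k := by
    rw [chg_dl, mul_one]
  have ed2 : S.dl 1 k = S.dl s k * S.dl (1 - s) k := by
    rw [← S.dl_add]
    congr 1
    ring
  rw [ed] at ga gx
  rw [ed']
  show |TR.ev (D.cy h i - D.ct h * D.cx h i) k ω - TR.ev (D.cy h i - D.ct h * D.cx h i) k ω'| ≤ _
  have q1 := h1 ω ω' a b q
  have q2 := h2 ω ω' a b q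
  have c1 : ∀ ω : (S.F k).Ω, (D.t.1 k ω = D.t0.1 k ω + S.dl s k * (D.ct h).1 k ω) →
      ((D.y i).1 k ω = (D.y0 i).1 k ω + S.dl s k * (D.cy h i).1 k ω) →
      S.dl s k * TR.ev (D.cy h i - D.ct h * D.cx h i) k ω =
        TR.ev (D.aT i) k ω + D.t0.1 k ω * TR.ev (D.x i) k ω - (D.y0 i).1 k ω := by
    intro ω w1 w2
    show S.dl s k * ((D.cy h i).1 k ω - (D.ct h).1 k ω * (D.x i).1 k ω) = (D.y i).1 k ω - D.t.1 k ω * (D.x i).1 k ω +
      D.t0.1 k ω * (D.x i).1 k ω - (D.y0 i).1 k ω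
    rw [w1, w2]
    ring
  apply aux_ld (S.dl_pos s k)
  rw [c1 ω e.1 e.2, c1 ω' e'.1 e'.2, q1, q2]
  have h5 : |D.t0.1 k ω'| ≤ K k := h3 ω' b
  have h6 : TR.ev (D.aT i) k ω + D.t0.1 k ω' * TR.ev (D.x i) k ω - (D.y0 i).1 k ω' -
      (TR.ev (D.aT i) k ω' + D.t0.1 k ω' * TR.ev (D.x i) k ω' - (D.y0 i).1 k ω') =
      (TR.ev (D.aT i) k ω - TR.ev (D.aT i) k ω') + D.t0.1 k ω' * (TR.ev (D.x i) k ω - TR.ev (D.x i) k ω') := by ring
  rw [h6]
  refine (abs_add_le _ _).trans ?_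
  rw [abs_mul]
  have h7 : |D.t0.1 k ω'| * |TR.ev (D.x i) k ω - TR.ev (D.x i) k ω'| ≤ K k * S.dl 1 k :=
    mul_le_mul h5 gx (abs_nonneg _) h3'
  calc _ ≤ S.dl 1 k + K k * S.dl 1 k := add_le_add ga h7
    _ = S.dl s k * ((1 + K k) * S.dl (1 - s) k) := by rw [ed2]; ring

/-- digits of the base line from the digits of the corner -/
theorem a_dg_le (hl : D.Lt s) (i : Fin d) {r : ℝ} (hr : r ≤ 1 - s) : chgL D.V.1 (1 - s) h.e0 (TR.dg (D.aT i) r) ≤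
    TR.dg (D.cy h i - D.ct h * D.cx h i) 1 ⊔ TR.dg (D.cx h i) 1 := by
  have he : (1 - s) ≠ 0 := h.e0.ne'
  have e1 : ∀ f : TR S, chgL D.V.1 (1 - s) h.e0 (TR.dg f r) = TR.dg (trc D.V.1 (1 - s) h.e0 f) (r / (1 - s)) := by
    intro f
    rw [trc_dg, mul_div_cancel₀ _ he]
  rw [e1]
  obtain ⟨K, hK, hKb⟩ := D.t0.2
  apply VV.dg_le_dg2 _ _ _ _ _ _ _ ((D.typ_t h hl).and (D.typ_y h hl i)) (fun k => 1 + K k)
    (chg_sub _ _ _ ((S.Sub_const zero_le_one).add hK))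
  filter_upwards [hl.lt, hl.ly i, hKb, hK.1] with k h1 h2 h3 h3' ω ω' a b e e' q g g' _
  have ga : |TR.ev (D.cy h i - D.ct h * D.cx h i) k ω - TR.ev (D.cy h i - D.ct h * D.cx h i) k ω'| ≤
    (D.sp h).dl 1 k := g 0
  have gx : |TR.ev (D.x i) k ω - TR.ev (D.x i) k ω'| ≤ (D.sp h).dl 1 k := g' 0
  have ed : (D.sp h).dl 1 k = S.dl (1 - s) k := by
    rw [chg_dl, mul_one]
  have ed' : (D.sp h).dl (r / (1 - s)) k = S.dl r k := by
    rw [chg_dl, mul_div_cancel₀ _ he]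
  rw [ed] at ga gx
  rw [ed']
  show |TR.ev (D.aT i) k ω - TR.ev (D.aT i) k ω'| ≤ _
  have q1 := h1 ω ω' a b q
  have q2 := h2 ω ω' a b q
  have c1 : ∀ ω : (S.F k).Ω, (D.t.1 k ω = D.t0.1 k ω + S.dl s k * (D.ct h).1 k ω) →
      ((D.y i).1 k ω = (D.y0 i).1 k ω + S.dl s k * (D.cy h i).1 k ω) →
      TR.ev (D.aT i) k ω = S.dl s k * TR.ev (D.cy h i - D.ct h * D.cx h i) k ω -
        D.t0.1 k ω * TR.ev (D.x i) k ω + (D.y0 i).1 k ω := by
    intro ω w1 w2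
    show (D.y i).1 k ω - D.t.1 k ω * (D.x i).1 k ω = S.dl s k * ((D.cy h i).1 k ω - (D.ct h).1 k ω * (D.x i).1 k ω) -
      D.t0.1 k ω * (D.x i).1 k ω + (D.y0 i).1 k ω
    rw [w1, w2]
    ring
  rw [c1 ω e.1 e.2, c1 ω' e'.1 e'.2, q1, q2]
  have h5 : |D.t0.1 k ω'| ≤ K k := h3 ω' b
  have h6 : S.dl s k * TR.ev (D.cy h i - D.ct h * D.cx h i) k ω - D.t0.1 k ω' * TR.ev (D.x i) k ω +
      (D.y0 i).1 k ω' - (S.dl s k * TR.ev (D.cy h i - D.ct h * D.cx h i) k ω' - D.t0.1 k ω' * TR.ev (D.x i) k ω' +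
      (D.y0 i).1 k ω') = S.dl s k * (TR.ev (D.cy h i - D.ct h * D.cx h i) k ω -
      TR.ev (D.cy h i - D.ct h * D.cx h i) k ω') - D.t0.1 k ω' * (TR.ev (D.x i) k ω - TR.ev (D.x i) k ω') := by ring
  rw [h6]
  refine (abs_sub _ _).trans ?_
  rw [abs_mul, abs_mul, abs_of_pos (S.dl_pos s k)]
  have h7 : |D.t0.1 k ω'| * |TR.ev (D.x i) k ω - TR.ev (D.x i) k ω'| ≤ K k * S.dl (1 - s) k :=
    mul_le_mul h5 gx (abs_nonneg _) h3'
  have h8 : S.dl s k ≤ 1 := by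
    have := S.dl_anti h.s0.le k
    rwa [S.dl_zero] at this
  have h9 : S.dl s k * |TR.ev (D.cy h i - D.ct h * D.cx h i) k ω - TR.ev (D.cy h i - D.ct h * D.cx h i) k ω'| ≤
      1 * S.dl (1 - s) k := mul_le_mul h8 ga (abs_nonneg _) zero_le_one
  have h10 := S.dl_anti hr k
  calc _ ≤ 1 * S.dl (1 - s) k + K k * S.dl (1 - s) k := add_le_add h9 h7
    _ = (1 + K k) * S.dl (1 - s) k := by ring
    _ ≤ (1 + K k) * S.dl r k := mul_le_mul_of_nonneg_left h10 (by linarith)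

/-- digits of the intercept of the top coordinate -/
theorem cb_dg_le (hl : D.Lt s) : TR.dg (D.cz h - D.cv h * D.ct h) 1 ≤
    chgL D.V.1 (1 - s) h.e0 (TR.dg D.bT 1 ⊔ TR.dg D.v 1) := by
  have he : (1 - s) ≠ 0 := h.e0.ne'
  have e1 : ∀ f : TR S, chgL D.V.1 (1 - s) h.e0 (TR.dg f 1) = TR.dg (trc D.V.1 (1 - s) h.e0 f) (1 / (1 - s)) := by
    intro f
    rw [trc_dg, mul_one_div_cancel he]
  rw [chgL_sup, e1, e1]
  obtain ⟨K, hK, hKb⟩ := D.t0.2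
  apply VV.dg_le_dg2 _ _ _ _ _ _ _ (D.typ_t h hl) (fun k => 1 + K k)
    (chg_sub _ _ _ ((S.Sub_const zero_le_one).add hK))
  filter_upwards [hl.lt, hKb, hK.1] with k h1 h3 h3' ω ω' a b e e' q gi gi' _
  have ga : |TR.ev D.bT k ω - TR.ev D.bT k ω'| ≤ (D.sp h).dl (1 / (1 - s)) k := gi 0
  have gx : |TR.ev D.v k ω - TR.ev D.v k ω'| ≤ (D.sp h).dl (1 / (1 - s)) k := gi' 0
  have ed : (D.sp h).dl (1 / (1 - s)) k = S.dl 1 k := by
    rw [chg_dl, mul_one_div_cancel he]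
  have ed' : (D.sp h).dl 1 k = S.dl (1 - s) k := by
    rw [chg_dl, mul_one]
  rw [ed] at ga gx
  rw [ed']
  show |TR.ev (D.cz h - D.cv h * D.ct h) k ω - TR.ev (D.cz h - D.cv h * D.ct h) k ω'| ≤ _
  have q1 := h1 ω ω' a b q
  have er : S.dl (1 - s - g) k * 1 = S.dl (1 - 2 * s - g) k * S.dl s k := by
    rw [mul_one, ← S.dl_add]
    congr 1
    ring
  have c1 : ∀ ω : (S.F k).Ω, (D.t.1 k ω = D.t0.1 k ω + S.dl s k * (D.ct h).1 k ω) →
      TR.ev (D.cz h - D.cv h * D.ct h) k ω =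
        S.dl (1 - 2 * s - g) k * (TR.ev D.bT k ω + D.t0.1 k ω * TR.ev D.v k ω) := by
    intro ω w1
    show S.dl (1 - 2 * s - g) k * D.z.1 k ω - S.dl (1 - s - g) k * D.v.1 k ω * (D.ct h).1 k ω =
      S.dl (1 - 2 * s - g) k * (D.z.1 k ω - D.t.1 k ω * D.v.1 k ω + D.t0.1 k ω * D.v.1 k ω)
    rw [w1]
    rw [mul_one] at er
    rw [er]
    ring
  rw [c1 ω e, c1 ω' e', q1]
  have h5 : |D.t0.1 k ω'| ≤ K k := h3 ω' b
  have h6 : S.dl (1 - 2 * s - g) k * (TR.ev D.bT k ω + D.t0.1 k ω' * TR.ev D.v k ω) -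
      S.dl (1 - 2 * s - g) k * (TR.ev D.bT k ω' + D.t0.1 k ω' * TR.ev D.v k ω') =
      S.dl (1 - 2 * s - g) k * ((TR.ev D.bT k ω - TR.ev D.bT k ω') +
        D.t0.1 k ω' * (TR.ev D.v k ω - TR.ev D.v k ω')) := by ring
  rw [h6, abs_mul, abs_of_pos (S.dl_pos _ k)]
  have h7 : |D.t0.1 k ω'| * |TR.ev D.v k ω - TR.ev D.v k ω'| ≤ K k * S.dl 1 k :=
    mul_le_mul h5 gx (abs_nonneg _) h3'
  have h8 : S.dl (1 - 2 * s - g) k ≤ 1 := by
    have := S.dl_anti h.r0 k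
    rwa [S.dl_zero] at this
  have h9 : |(TR.ev D.bT k ω - TR.ev D.bT k ω') + D.t0.1 k ω' * (TR.ev D.v k ω - TR.ev D.v k ω')| ≤
      (1 + K k) * S.dl 1 k := by
    refine (abs_add_le _ _).trans ?_
    rw [abs_mul]
    linarith [add_le_add ga h7]
  have h10 : S.dl 1 k ≤ S.dl (1 - s) k := S.dl_anti h.e1 k
  calc _ ≤ 1 * ((1 + K k) * S.dl 1 k) := mul_le_mul h8 h9 (abs_nonneg _) zero_le_one
    _ ≤ (1 + K k) * S.dl (1 - s) k := by
        rw [one_mul]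
        exact mul_le_mul_of_nonneg_left h10 (by linarith)

end CT

end

end Pool.Agent.Helper69.BF
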