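import Pool.Agent.Helper69.BF.Lit
import Pool.Agent.Helper50.CV.FlatK

/-! THE EXACT LITERAL LEAF: for a flat corner the top coordinate is a polynomial of the base point whose coefficients
are literal functions of the cells of the point and at the same time literal functions of any variable for which the
functions of the line are literal. -/

set_option autoImplicit false

namespace Pool.Agent.Helper69.BF

open Finset Filter Topology Pool.Agent.Helper69.RK Pool.Agent.Helper31.EC Pool.Agent.Helper82.TP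
open Pool.Agent.Helper25.EC Pool.Agent.Helper62.UR
open Pool.Agent.Helper38.NS Pool.Agent.Helper38.NS.FB Pool.Agent.Helper99.EC Pool.Agent.Helper99.CC
open Pool.Agent.Helper50.CV (CB)
open Pool.Agent.Helper3.LF (Mon)

noncomputable section

open Sp QS

theorem qs_inj {W S : Sp} (p : Pj W S) {f g : QS S} (h : p.qs f = p.qs g) : f = g := by
  rw [← sub_eq_zero, ← QS.mem_Id_one, ← p.qs_mem_Id le_rfl, map_sub, h, sub_self]
  exact (Id W 1).zero_mem

/-- agreement of two copies gives a literal function of the space below -/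
theorem lit_of_two_down {W S : Sp} (p : Pj W S) {α : ℕ → Type} {V : ∀ k, (S.F k).Ω → α k} {C : QS W}
    (h : (two1 (fun k w => V k (p.π k w))).qs C = (two2 (fun k w => V k (p.π k w))).qs C) :
    ∃ g : QS S, Lit V g ∧ p.qs g = C := by
  obtain ⟨gV, h1, h2⟩ := lit_of_two (V := fun k w => V k (p.π k w)) (g := C) (δ := 1) (by
    rw [h, sub_self]
    exact (Id _ 1).zero_mem)
  rw [QS.mem_Id_one, sub_eq_zero] at h2
  rw [h2]
  exact lit_down p h1

variable {T : Sp} {d k K : ℕ}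

theorem exact_leafC (tr : FTC T d k) (hP0 : CPOT tr.cb K) (hy : tr.cb.Hyp) (hq : Rl tr.cb.fb.q ⊥) {a0 c : ℝ}
    (ha0 : a0 < 1) (hc : 0 < c) (hu : UnS tr.cb.fb.z (tr.cb.fb.iT ⊔ tr.cb.fb.iY) a0 c) (hG : HasGP tr.cb)
    {α : ℕ → Type} (VA : ∀ n, (T.F n).Ω → α n) (la : ∀ i, Lit VA (QS.mk (tr.a i))) (lx : ∀ i, Lit VA (QS.mk (tr.x i)))
    (lc : ∀ i, Lit VA (QS.mk (tr.c i))) :
    ∃ cf : Mon (d + 1) K → QS T, (∀ a, Lit (β := fun _ => Fin (d + 1 + 1) → ℤ) (tr.pv.cellv 1) (cf a)) ∧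
      (∀ a, Lit VA (cf a)) ∧ QS.mk tr.z = ∑ a, cf a * ∏ i, QS.mk (tr.q i) ^ (a.1 i : ℕ) := by
  classical
  set s := tr.cb with hsdef
  have hX : I s.fb.iX s.fb.iP ⊥ = 0 := hy.s1
  obtain ⟨ι, _, W0, p, hst0, hsp0⟩ := hG
  obtain ⟨W, w, ⟨Φ⟩⟩ := hP0 ι inferInstance W0 p hst0 hsp0
  have hst := hst0.pull w
  have hsp := hsp0.pull w
  have hfree := Φ.free hP0 hX hq hst hsp
  obtain ⟨i0⟩ := hsp.ne
  set p0 : Pj W T := w.comp (p i0) with hp0
  -- the coefficients
  set Cf : Mon (d + 1) K → QS W := fun a => if a.ex = 0 then Φ.g i0 else Φ.f.coeff a.ex with hCf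
  have hq0 : ∀ i, p0.qs (QS.mk (tr.q i)) = p0.qs (s.fb.q i) := fun i => by rw [hsdef, tr.fb_q]
  have hz0 : p0.qs (QS.mk tr.z) = p0.qs s.fb.z := by rw [hsdef, tr.fb_z]
  -- the expansion of `z`
  have hz : p0.qs (QS.mk tr.z) =
      ∑ a : Mon (d + 1) K, Cf a * ∏ i, p0.qs (QS.mk (tr.q i)) ^ (a.1 i : ℕ) := by
    have e1 : p0.qs s.fb.z = Φ.g i0 + MvPolynomial.eval (fun a => p0.qs (s.fb.q a)) Φ.f := by
      show p0.qs s.fb.z = (p0.qs s.fb.z - MvPolynomial.eval (fun a => p0.qs (s.fb.q a)) Φ.f) + _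
      ring
    rw [hz0, e1, eval_mon Φ.f Φ.deg]
    -- the constant term
    have e2 : ∃ a0 : Mon (d + 1) K, a0.ex = 0 := by
      refine ⟨⟨fun _ => 0, by simp⟩, ?_⟩
      ext i
      rfl
    obtain ⟨a0, ha0⟩ := e2
    have hinj : Function.Injective (Mon.ex : Mon (d + 1) K → Fin (d + 1) →₀ ℕ) := by
      intro a b h
      apply Subtype.ext
      funext i
      apply Fin.ext
      exact DFunLike.congr_fun h i
    rw [← Finset.add_sum_erase _ _ (Finset.mem_univ a0), ← Finset.add_sum_erase _ (fun a : Mon (d + 1) K =>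
      Cf a * ∏ i, p0.qs (QS.mk (tr.q i)) ^ (a.1 i : ℕ)) (Finset.mem_univ a0)]
    have e3 : ∏ i, p0.qs (QS.mk (tr.q i)) ^ (a0.1 i : ℕ) = 1 := by
      apply Finset.prod_eq_one
      intro i _
      have h1 : (a0.1 i : ℕ) = 0 := DFunLike.congr_fun ha0 i
      rw [h1, pow_zero]
    rw [e3, mul_one]
    have e4 : Cf a0 = Φ.g i0 := by
      show (if a0.ex = 0 then Φ.g i0 else Φ.f.coeff a0.ex) = _
      rw [if_pos ha0]
    rw [e4, ha0, Φ.f0, zero_mul, zero_add]
    congr 1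
    apply Finset.sum_congr rfl
    intro a ha
    have h1 : a.ex ≠ 0 := by
      intro hc0
      exact (Finset.mem_erase.mp ha).1 (hinj (hc0.trans ha0.symm))
    have h2 : Cf a = Φ.f.coeff a.ex := by
      show (if a.ex = 0 then Φ.g i0 else Φ.f.coeff a.ex) = _
      rw [if_neg h1]
    rw [h2]
    congr 1
    apply Finset.prod_congr rfl
    intro i _
    rw [hq0]
  -- copies given the point
  have hB : ∀ a, (two1 (cv p0 tr.pv)).qs (Cf a) = (two2 (cv p0 tr.pv)).qs (Cf a) := by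
    set r1 := two1 (cv p0 tr.pv) with hr1
    set r2 := two2 (cv p0 tr.pv) with hr2
    have c0 : ∀ a, r1.qs (p0.qs (s.fb.fQ a)) = r2.qs (p0.qs (s.fb.fQ a)) := by
      intro a
      rcases a with i | i
      · have h1 := two_com p0 tr.pv i.castSucc
        have h2 : TR.cor tr.pv i.castSucc = tr.q i := by
          unfold FTC.pv
          rw [TR.cor_vec, Fin.snoc_castSucc]
        rw [h2, ← tr.fb_q] at h1
        exact h1
      · have h1 := two_com p0 tr.pv (Fin.last (d + 1))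
        have h2 : TR.cor tr.pv (Fin.last (d + 1)) = tr.z := by
          unfold FTC.pv
          rw [TR.cor_vec, Fin.snoc_last]
        rw [h2, ← tr.fb_z] at h1
        exact h1
    have hc1 : ∀ i a, r1.qs ((w.comp (p i)).qs (s.fb.fQ a)) = r2.qs ((w.comp (p i)).qs (s.fb.fQ a)) := by
      intro i a
      rw [hst.com i i0 a]
      exact c0 a
    have hI1 : ∀ i x y, I (r1.map x) (r2.map y) (r1.map ((w.comp (p i)).map (vd s.fb.fQ 1))) = 0 := by
      intro i x y
      rw [hst.com_vd i i0, ← tr.pv_dg]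
      exact two_ind p0 tr.pv x y
    have hf := Φ.agree hP0 hX hq hst hsp r1 r2 hc1 hI1
    have hfc : ∀ m, r1.qs (Φ.f.coeff m) = r2.qs (Φ.f.coeff m) := by
      intro m
      have := congrArg (MvPolynomial.coeff m) hf
      rwa [MvPolynomial.coeff_map, MvPolynomial.coeff_map] at this
    have hg : r1.qs (Φ.g i0) = r2.qs (Φ.g i0) := by
      unfold CPot.g
      rw [map_sub, map_sub, qs_eval, qs_eval, hf]
      have e1 : r1.qs ((w.comp (p i0)).qs s.fb.z) = r2.qs ((w.comp (p i0)).qs s.fb.z) := c0 (Sum.inr ())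
      have e2 : (fun a => r1.qs ((w.comp (p i0)).qs (s.fb.q a))) = fun a => r2.qs ((w.comp (p i0)).qs (s.fb.q a)) := by
        funext a
        exact c0 (Sum.inl a)
      rw [e1, e2]
    intro a
    show r1.qs (if a.ex = 0 then Φ.g i0 else Φ.f.coeff a.ex) = r2.qs (if a.ex = 0 then Φ.g i0 else Φ.f.coeff a.ex)
    split_ifs
    · exact hg
    · exact hfc _
  -- copies given the line
  have hXX : ∀ a, (two1 (fun n w => VA n (p0.π n w))).qs (Cf a) = (two2 (fun n w => VA n (p0.π n w))).qs (Cf a) := by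
    set r1 := two1 (fun n w => VA n (p0.π n w)) with hr1
    set r2 := two2 (fun n w => VA n (p0.π n w)) with hr2
    have ca : ∀ j, r1.qs (p0.qs (s.a j)) = r2.qs (p0.qs (s.a j)) := fun j => lit_two (lit_pull p0 (la j))
    have cx : ∀ j, r1.qs (p0.qs (s.x j)) = r2.qs (p0.qs (s.x j)) := fun j => lit_two (lit_pull p0 (lx j))
    have cc : ∀ j, r1.qs (p0.qs (s.c j)) = r2.qs (p0.qs (s.c j)) := fun j => lit_two (lit_pull p0 (lc j))
    obtain ⟨hf, hg⟩ := Φ.line_agree hy hq hst hsp hfree i0 ha0 hc hu r1 r2 ca cx cc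
    have hfc : ∀ m, r1.qs (Φ.f.coeff m) = r2.qs (Φ.f.coeff m) := by
      intro m
      have := congrArg (MvPolynomial.coeff m) hf
      rwa [MvPolynomial.coeff_map, MvPolynomial.coeff_map] at this
    intro a
    show r1.qs (if a.ex = 0 then Φ.g i0 else Φ.f.coeff a.ex) = r2.qs (if a.ex = 0 then Φ.g i0 else Φ.f.coeff a.ex)
    split_ifs
    · exact hg
    · exact hfc _
  have h1 : ∀ a, ∃ g : QS T, Lit (β := fun _ => Fin (d + 1 + 1) → ℤ) (tr.pv.cellv 1) g ∧ p0.qs g = Cf a := fun a =>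
    lit_of_two_down p0 (hB a)
  have h2 : ∀ a, ∃ g : QS T, Lit VA g ∧ p0.qs g = Cf a := fun a => lit_of_two_down p0 (hXX a)
  choose cf hcf1 hcf2 using h1
  choose cf' hcf1' hcf2' using h2
  have h3 : ∀ a, cf a = cf' a := fun a => qs_inj p0 ((hcf2 a).trans (hcf2' a).symm)
  refine ⟨cf, hcf1, fun a => ?_, ?_⟩
  · rw [h3]
    exact hcf1' a
  · apply qs_inj p0
    rw [hz, map_sum]
    apply Finset.sum_congr rfl
    intro a _
    rw [map_mul, map_prod, hcf2]
    simp only [map_pow]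

/-- straight lines -/
theorem exact_leaf_one (tr : FTC T d 1) (hy : tr.cb.Hyp) (hq : Rl tr.cb.fb.q ⊥) {c : ℝ} (hc : 0 < c)
    (hu : UnS tr.cb.fb.z (tr.cb.fb.iT ⊔ tr.cb.fb.iY) 0 c) (hG : HasGP tr.cb)
    {α : ℕ → Type} (VA : ∀ n, (T.F n).Ω → α n) (la : ∀ i, Lit VA (QS.mk (tr.a i))) (lx : ∀ i, Lit VA (QS.mk (tr.x i)))
    (lc : ∀ i, Lit VA (QS.mk (tr.c i))) :
    ∃ cf : Mon (d + 1) (d + 1 + 1) → QS T, (∀ a, Lit (β := fun _ => Fin (d + 1 + 1) → ℤ) (tr.pv.cellv 1) (cf a)) ∧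
      (∀ a, Lit VA (cf a)) ∧ QS.mk tr.z = ∑ a, cf a * ∏ i, QS.mk (tr.q i) ^ (a.1 i : ℕ) :=
  exact_leafC tr (cpot tr.cb (slo_one tr.cb hy hq hc hu) hy hq zero_lt_one hc hu) hy hq zero_lt_one hc hu hG VA la lx lc

end

end Pool.Agent.Helper69.BF
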