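import Pool.Agent.Helper31.NSB.St
import Pool.Agent.Helper62.UR.Lc
import Pool.Agent.Helper24.T3.Gen

/-! Literal functions: the literal fields of the data of a corner (`LitF`), literal functions form a subring, they are
the exact functions `Fn` of helper24, descent from extensions, division by a scale. -/

set_option autoImplicit false

namespace Pool.Agent.Helper69.BF

open Finset Filter Topology Pool.Agent.Helper69.RK Pool.Agent.Helper31.EC Pool.Agent.Helper82.TP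
open Pool.Agent.Helper25.EC Pool.Agent.Helper31.NSB Pool.Agent.Helper24.T3 Pool.Agent.Helper62.UR
open Pool.Agent.Helper57.TA (sc scT ev_scT mem_Id_iff sc_mul_mem_iff)

noncomputable section

open Sp QS

/-- THE LITERAL FIELDS: the functions of the line are literal functions of `VA`, those of the point of `VB` -/
structure LitF {S : Sp} (H : RD S) : Prop where
  x : Lit H.VA H.x
  a : Lit H.VA H.a
  F : Lit H.VA H.F
  cR : Lit H.VA H.cR
  v : Lit H.VA H.v
  az : Lit H.VA H.az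
  t : Lit H.VB H.t
  y : Lit H.VB H.y
  R : Lit H.VB H.R
  z : Lit H.VB H.z

theorem LitF.of {S : Sp} {H : RD S} {f : FR S} {w1 w : ℝ} {Sc : Set ℝ} (c : C0 H f w1 w Sc) : LitF H where
  x := c.lA.1
  a := c.lA.2.1
  F := c.lA.2.2.1
  cR := c.lA.2.2.2.1
  v := c.lA.2.2.2.2.1
  az := c.lA.2.2.2.2.2
  t := c.lB.1
  y := c.lB.2.1
  R := c.lB.2.2.1
  z := c.lB.2.2.2

/-- the exchange keeps the literal fields -/
theorem LitF.swp {S : Sp} {H : RD S} (h : LitF H) : LitF (swp H) where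
  x := h.x
  a := h.a
  F := h.v
  cR := h.az
  v := h.F
  az := h.cR
  t := h.t
  y := h.y
  R := h.z
  z := h.R

section

variable {S : Sp} {α : ℕ → Type} {V : ∀ k, (S.F k).Ω → α k}

theorem lit_zero : Lit V (0 : QS S) := ⟨0, map_zero _, Eventually.of_forall fun _ _ _ _ _ _ _ => rfl⟩

theorem lit_one : Lit V (1 : QS S) := ⟨1, map_one _, Eventually.of_forall fun _ _ _ _ _ _ _ => rfl⟩

variable (V) in
/-- the subring of literal functions -/
def LR : Subring (QS S) where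
  carrier := {f | Lit V f}
  mul_mem' := fun h h' => h.mul h'
  one_mem' := lit_one
  add_mem' := fun h h' => h.add h'
  zero_mem' := lit_zero
  neg_mem' := fun h => h.neg

theorem mem_LR {f : QS S} : f ∈ LR V ↔ Lit V f := Iff.rfl

theorem lit_sc (u : ℝ) : Lit V (sc S u) := ⟨scT S u, rfl, Eventually.of_forall fun _ _ _ _ _ _ _ => rfl⟩

/-- exact functions are literal -/
theorem lit_of_Fn {f : QS S} (hf : f ∈ Fn V) : Lit V f := by
  obtain ⟨g, hg, rfl⟩ := hf
  exact ⟨g, rfl, Eventually.of_forall fun k ω ω' _ _ hZ hV => hg k ω ω' hV hZ⟩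

/-- literal functions have exact representatives -/
theorem Fn_of_lit {f : QS S} (hf : Lit V f) : f ∈ Fn V := by
  classical
  obtain ⟨g, rfl, hg⟩ := hf
  obtain ⟨K, hK, hKb⟩ := g.2
  obtain ⟨R, hR⟩ : ∃ R : ∀ k, (S.F k).Ω → (S.F k).Ω → Prop, ∀ k ω ω', R k ω ω' ↔
    ((S.F k).μ ω' ≠ 0 ∧ (S.F k).Z ω ω' ∧ V k ω = V k ω') :=
    ⟨fun k ω ω' => (S.F k).μ ω' ≠ 0 ∧ (S.F k).Z ω ω' ∧ V k ω = V k ω', fun _ _ _ => Iff.rfl⟩
  have hcongr : ∀ k ω ω', V k ω = V k ω' → (S.F k).Z ω ω' → R k ω = R k ω' := by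
    intro k ω ω' hV hZ
    funext w
    apply propext
    rw [hR, hR]
    constructor
    · rintro ⟨h1, h2, h3⟩
      exact ⟨h1, (S.F k).Z.trans ((S.F k).Z.symm hZ) h2, hV.symm.trans h3⟩
    · rintro ⟨h1, h2, h3⟩
      exact ⟨h1, (S.F k).Z.trans hZ h2, hV.trans h3⟩
  obtain ⟨F, hF1, hF2⟩ : ∃ F : ∀ k, ((S.F k).Ω → Prop) → ℝ, (∀ k P, (∃ w, P w) → ∃ w, P w ∧ F k P = g.1 k w) ∧
      ∀ k P, (¬ ∃ w, P w) → F k P = 0 := by
    refine ⟨fun k P => if h : ∃ w, P w then g.1 k h.choose else 0, ?_, ?_⟩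
    · intro k P h
      refine ⟨h.choose, h.choose_spec, ?_⟩
      show (if h : ∃ w, P w then g.1 k h.choose else 0) = _
      rw [dif_pos h]
    · intro k P h
      show (if h : ∃ w, P w then g.1 k h.choose else 0) = _
      rw [dif_neg h]
  refine ⟨⟨fun k ω => F k (R k ω), K, hK, ?_⟩, ?_, ?_⟩
  · filter_upwards [hKb, hK.1] with k h1 h2 ω _
    by_cases h : ∃ ω', R k ω ω'
    · obtain ⟨w, hw, e⟩ := hF1 k _ h
      rw [e]
      exact h1 _ ((hR _ _ _).mp hw).1
    · rw [hF2 k _ h, abs_zero]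
      exact h2
  · intro k ω ω' hV hZ
    show F k (R k ω) = F k (R k ω')
    rw [hcongr k ω ω' hV hZ]
  · rw [mk_eq]
    apply TR.Te.ag
    refine ⟨fun _ _ => True, Typ_true, ?_⟩
    filter_upwards [hg] with k hk ω hω _
    have hex : ∃ w, R k ω w := ⟨ω, (hR _ _ _).mpr ⟨hω, (S.F k).Z.refl ω, rfl⟩⟩
    obtain ⟨w, hw, e⟩ := hF1 k _ hex
    have h3 := (hR _ _ _).mp hw
    show F k (R k ω) = _
    rw [e]
    exact (hk ω _ hω h3.1 h3.2.1 h3.2.2).symm

/-- literal functions over an extension come from the space -/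
theorem lit_down {W : Sp} (p : Pj W S) {f : QS W} (hf : Lit (fun k w => V k (p.π k w)) f) :
    ∃ g : QS S, Lit V g ∧ p.qs g = f := by
  classical
  obtain ⟨G, rfl, hG⟩ := hf
  obtain ⟨K, hK, hKb⟩ := G.2
  have hKS : S.Sub K := sub_down p hK
  obtain ⟨g, hg⟩ : ∃ g : TR S, g.1 = fun k ω => if h : ∃ w, (W.F k).μ w ≠ 0 ∧ p.π k w = ω then G.1 k h.choose else 0 := by
    refine ⟨⟨fun k ω => if h : ∃ w, (W.F k).μ w ≠ 0 ∧ p.π k w = ω then G.1 k h.choose else 0, K, hKS, ?_⟩, rfl⟩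
    filter_upwards [hKb, hK.1] with k h1 h2 ω _
    split_ifs with h
    · exact h1 _ h.choose_spec.1
    · rw [abs_zero]
      exact h2
  have key : ∀ᶠ k in UF, ∀ w, (W.F k).μ w ≠ 0 → g.1 k (p.π k w) = G.1 k w := by
    filter_upwards [hG] with k hk w hw
    have hex : ∃ w', (W.F k).μ w' ≠ 0 ∧ p.π k w' = p.π k w := ⟨w, hw, rfl⟩
    rw [hg]
    show (if h : ∃ w', (W.F k).μ w' ≠ 0 ∧ p.π k w' = p.π k w then G.1 k h.choose else 0) = _
    rw [dif_pos hex]
    have h3 := hex.choose_spec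
    refine hk _ _ h3.1 hw ?_ ?_
    · rw [p.hZ k _ _ h3.1 hw, h3.2]
    · show V k (p.π k hex.choose) = V k (p.π k w)
      rw [h3.2]
  refine ⟨mk g, ⟨g, rfl, ?_⟩, ?_⟩
  · filter_upwards [hG, key] with k h1 h2 ω ω' hω hω' hZ hV
    obtain ⟨w, hw, rfl⟩ := p.exists_lift k ω hω
    obtain ⟨w', hw', rfl⟩ := p.exists_lift k ω' hω'
    show g.1 k _ = g.1 k _
    rw [h2 w hw, h2 w' hw']
    exact h1 w w' hw hw' ((p.hZ k _ _ hw hw').mpr hZ) hV
  · rw [p.qs_mk, mk_eq]
    apply TR.Te.ag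
    refine ⟨fun _ _ => True, Typ_true, ?_⟩
    filter_upwards [key] with k hk w hw _
    exact hk w hw

open Classical in
/-- division of a literal function by a scale -/
theorem lit_div {u : ℝ} (hu : 0 ≤ u) (hu1 : u ≤ 1) {f : QS S} (hl : Lit V f) (hf : f ∈ Id S u) :
    ∃ g : QS S, f = sc S u * g ∧ Lit V g := by
  obtain ⟨f, rfl, hl⟩ := hl
  rw [mem_Id_iff, min_eq_left hu1] at hf
  obtain ⟨E, K, hE, hK, hh⟩ := hf
  obtain ⟨g, hg⟩ : ∃ g : TR S, g.1 = fun k ω => if |TR.ev f k ω| ≤ K k * S.dl u k then TR.ev f k ω / S.dl u k else 0 := by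
    refine ⟨⟨fun k ω => if |TR.ev f k ω| ≤ K k * S.dl u k then TR.ev f k ω / S.dl u k else 0, K, hK, ?_⟩, rfl⟩
    filter_upwards [hK.1] with k hK0 ω _
    split_ifs with h1
    · rw [abs_div, abs_of_pos (S.dl_pos _ _), div_le_iff₀ (S.dl_pos _ _)]
      exact h1
    · rw [abs_zero]
      exact hK0
  refine ⟨mk g, ?_, g, rfl, ?_⟩
  · unfold sc
    rw [← map_mul, mk_eq]
    apply TR.Te.ag
    refine ⟨E, hE, ?_⟩
    filter_upwards [hh] with k hk ω a b
    have h1 := hk ω a b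
    rw [TR.ev_zero, sub_zero] at h1
    rw [TR.ev_mul, ev_scT hu]
    have h2 : TR.ev g k ω = TR.ev f k ω / S.dl u k := by
      show g.1 k ω = _
      rw [hg]
      show (if |TR.ev f k ω| ≤ K k * S.dl u k then TR.ev f k ω / S.dl u k else 0) = _
      rw [if_pos h1]
    rw [h2, mul_div_cancel₀ _ (S.dl_pos _ _).ne']
  · filter_upwards [hl] with k hk ω ω' hω hω' hZ hV
    have h1 := hk ω ω' hω hω' hZ hV
    show g.1 k ω = g.1 k ω'
    rw [hg]
    show (if |TR.ev f k ω| ≤ K k * S.dl u k then TR.ev f k ω / S.dl u k else 0) =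
      (if |TR.ev f k ω'| ≤ K k * S.dl u k then TR.ev f k ω' / S.dl u k else 0)
    rw [h1]

/-- coefficients in a subring -/
theorem exists_map_subring {A σ : Type*} [CommRing A] (R : Subring A) {P : MvPolynomial σ A}
    (hP : ∀ m, P.coeff m ∈ R) : ∃ Q : MvPolynomial σ R, MvPolynomial.map R.subtype Q = P := by
  have h1 : P ∈ Set.range (MvPolynomial.map (σ := σ) R.subtype) := by
    rw [MvPolynomial.mem_range_map_iff_coeffs_subset]
    intro c hc
    rw [Finset.mem_coe, MvPolynomial.mem_coeffs_iff] at hc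
    obtain ⟨m, _, rfl⟩ := hc
    exact ⟨⟨_, hP m⟩, rfl⟩
  exact h1

theorem coeff_map_subring {A σ : Type*} [CommRing A] (R : Subring A) (Q : MvPolynomial σ R) (m : σ →₀ ℕ) :
    (MvPolynomial.map R.subtype Q).coeff m ∈ R := by
  rw [MvPolynomial.coeff_map]
  exact (Q.coeff m).2

end

end

end Pool.Agent.Helper69.BF
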