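import Pool.Agent.Helper69.BF.Bsh2
import Pool.Agent.Helper57.TA.Mv

/-! Polynomials with coefficients in a subring, linear substitutions, coefficients in an ideal; polynomials given by a
family of coefficients. -/

set_option autoImplicit false

namespace Pool.Agent.Helper69.BF

open Pool.Agent.Helper3.LF (Mon)

noncomputable section

open MvPolynomial

variable {A : Type*} [CommRing A] {N K : ℕ}

/-- the polynomial with given coefficients -/
def pol (c : Mon N K → A) : MvPolynomial (Fin N) A := ∑ a, C (c a) * ∏ i, X i ^ (a.1 i : ℕ)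

/-- substitution in a polynomial with given coefficients -/
def sub (φ : Fin N → MvPolynomial (Fin N) A) (c : Mon N K → A) : MvPolynomial (Fin N) A :=
  ∑ a, C (c a) * ∏ i, φ i ^ (a.1 i : ℕ)

theorem eval_sub (φ : Fin N → MvPolynomial (Fin N) A) (c : Mon N K → A) (x : Fin N → A) :
    eval x (sub φ c) = ∑ a, c a * ∏ i, (eval x (φ i)) ^ (a.1 i : ℕ) := by
  unfold sub
  rw [map_sum]
  apply Finset.sum_congr rfl
  intro a _
  rw [map_mul, map_prod, eval_C]
  simp only [map_pow]

theorem eval_pol (c : Mon N K → A) (x : Fin N → A) : eval x (pol c) = ∑ a, c a * ∏ i, x i ^ (a.1 i : ℕ) := by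
  have h1 := eval_sub (fun i => X i) c x
  simp only [eval_X] at h1
  exact h1

theorem mon_sum_le (a : Mon N K) : ∑ i, (a.1 i : ℕ) ≤ K := a.2

/-- degree of a substitution by polynomials of degree one -/
theorem sub_deg (φ : Fin N → MvPolynomial (Fin N) A) (hφ : ∀ i, (φ i).totalDegree ≤ 1) (c : Mon N K → A) :
    (sub φ c).totalDegree ≤ K := by
  unfold sub
  apply (totalDegree_finsetSum _ _).trans
  apply Finset.sup_le
  intro a _
  refine (totalDegree_mul _ _).trans ?_
  rw [totalDegree_C, zero_add]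
  refine (totalDegree_finsetProd _ _).trans ?_
  refine le_trans (Finset.sum_le_sum fun i _ => ?_) (mon_sum_le a)
  refine (totalDegree_pow _ _).trans ?_
  calc (a.1 i : ℕ) * (φ i).totalDegree ≤ (a.1 i : ℕ) * 1 := Nat.mul_le_mul_left _ (hφ i)
    _ = (a.1 i : ℕ) := mul_one _

theorem pol_deg (c : Mon N K → A) : (pol c).totalDegree ≤ K := by
  apply sub_deg (fun i => X i)
  intro i
  rcases subsingleton_or_nontrivial A with h | h
  · have : (X i : MvPolynomial (Fin N) A) = 0 := Subsingleton.elim _ _
    rw [this, totalDegree_zero]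
    exact Nat.zero_le _
  · rw [totalDegree_X]

/-- polynomials with coefficients in a subring -/
def PR (R : Subring A) : Subring (MvPolynomial (Fin N) A) := (map R.subtype).range

theorem coeff_PR {R : Subring A} {P : MvPolynomial (Fin N) A} (h : P ∈ PR (N := N) R) (m : Fin N →₀ ℕ) :
    P.coeff m ∈ R := by
  obtain ⟨Q, rfl⟩ := h
  rw [coeff_map]
  exact (Q.coeff m).2

theorem C_PR {R : Subring A} {a : A} (h : a ∈ R) : (C a : MvPolynomial (Fin N) A) ∈ PR (N := N) R :=
  ⟨C ⟨a, h⟩, by rw [map_C]; rfl⟩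

theorem X_PR {R : Subring A} (i : Fin N) : (X i : MvPolynomial (Fin N) A) ∈ PR (N := N) R := ⟨X i, map_X _ _⟩

theorem sub_PR {R : Subring A} {φ : Fin N → MvPolynomial (Fin N) A} (hφ : ∀ i, φ i ∈ PR (N := N) R)
    {c : Mon N K → A} (hc : ∀ a, c a ∈ R) : sub φ c ∈ PR (N := N) R := by
  unfold sub
  apply Subring.sum_mem
  intro a _
  apply Subring.mul_mem _ (C_PR (hc a))
  apply Subring.prod_mem
  intro i _
  exact Subring.pow_mem _ (hφ i) _

/-- differences -/
theorem sub_sub_coeff {J : Ideal A} (φ : Fin N → MvPolynomial (Fin N) A) {c c' : Mon N K → A}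
    (h : ∀ a, c a - c' a ∈ J) (m : Fin N →₀ ℕ) : (sub φ c).coeff m - (sub φ c').coeff m ∈ J := by
  have h1 : sub φ c - sub φ c' = ∑ a, C (c a - c' a) * ∏ i, φ i ^ (a.1 i : ℕ) := by
    unfold sub
    rw [← Finset.sum_sub_distrib]
    apply Finset.sum_congr rfl
    intro a _
    rw [map_sub]
    ring
  rw [← coeff_sub, h1, coeff_sum]
  apply Ideal.sum_mem
  intro a _
  rw [coeff_C_mul]
  exact Ideal.mul_mem_right _ _ (h a)

theorem ex_inj : Function.Injective (Mon.ex : Mon N K → Fin N →₀ ℕ) := by
  intro a b h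
  apply Subtype.ext
  funext i
  apply Fin.ext
  exact DFunLike.congr_fun h i

/-- coefficients of the polynomial with given coefficients -/
theorem pol_coeff (c : Mon N K → A) (a : Mon N K) : (pol c).coeff a.ex = c a := by
  classical
  unfold pol
  rw [coeff_sum, Finset.sum_eq_single a]
  · rw [coeff_C_mul]
    have h1 : (∏ i, X i ^ (a.1 i : ℕ) : MvPolynomial (Fin N) A) = monomial a.ex 1 := by
      rw [monomial_eq, Finsupp.prod_fintype _ _ (fun i => pow_zero _), C_1, one_mul]
      rfl
    rw [h1, coeff_monomial, if_pos rfl, mul_one]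
  · intro b _ hb
    rw [coeff_C_mul]
    have h1 : (∏ i, X i ^ (b.1 i : ℕ) : MvPolynomial (Fin N) A) = monomial b.ex 1 := by
      rw [monomial_eq, Finsupp.prod_fintype _ _ (fun i => pow_zero _), C_1, one_mul]
      rfl
    rw [h1, coeff_monomial, if_neg (fun e => hb (ex_inj e)), mul_zero]
  · intro h
    exact absurd (Finset.mem_univ a) h

end

end Pool.Agent.Helper69.BF
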