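import Pool.Agent.Helper69.BF.Trf

/-! Literal tame representatives of the data of a corner with `w1 = 1`; the hypotheses of the flat corner in the
window `s`. -/

set_option autoImplicit false

namespace Pool.Agent.Helper69.BF

open Finset Filter Topology Pool.Agent.Helper69.RK Pool.Agent.Helper31.EC Pool.Agent.Helper82.TP
open Pool.Agent.Helper60.CS Pool.Agent.Helper25.EC Pool.Agent.Helper31.NSB
open Pool.Agent.Helper57.TA (sc scT ev_scT mem_Id_iff sc_mul_mem_iff)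
open Pool.Agent.Helper79.NF (HD0)

noncomputable section

open Sp QS

/-- literal tame functions -/
def LT {S : Sp} {β : ℕ → Type} (V : ∀ k, (S.F k).Ω → β k) (g : TR S) : Prop :=
  ∀ᶠ k in UF, ∀ ω ω', (S.F k).μ ω ≠ 0 → (S.F k).μ ω' ≠ 0 → (S.F k).Z ω ω' → V k ω = V k ω' → g.1 k ω = g.1 k ω'

/-- representatives of the data -/
structure Rp {S : Sp} (H : RD S) (f : FR S) (s : ℝ) where
  D : CT S 2
  ht : QS.mk D.t = H.t
  hy : QS.mk (D.y 0) = H.y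
  hR : QS.mk (D.y 1) = H.R
  hx : QS.mk (D.x 0) = H.x
  hF : QS.mk (D.x 1) = H.F
  hz : QS.mk D.z = H.z
  hv : QS.mk D.v = H.v
  ht0 : QS.mk D.t0 = f.t0 s
  hy0 : QS.mk (D.y0 0) = f.y0 s
  hR0 : QS.mk (D.y0 1) = f.r0 s + f.rt s * f.t0 s + f.ry s * f.y0 s
  lt : LT H.VB D.t
  ly : ∀ i, LT H.VB (D.y i)
  lz : LT H.VB D.z
  lt0 : LT (H.K s) D.t0
  ly0 : ∀ i, LT (H.K s) (D.y0 i)
  bK : Bdd (H.K s)
  hV : D.V = bK.toInf
  ft : Typ (S := S) (fun k ω => |D.t.1 k ω - D.t0.1 k ω| ≤ D.L k * S.dl s k)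
  fy : ∀ i, Typ (S := S) (fun k ω => |(D.y i).1 k ω - (D.y0 i).1 k ω| ≤ D.L k * S.dl s k)

theorem close_rep {S : Sp} {f g : TR S} {s : ℝ} (hs : s ≤ 1) (h : QS.mk f - QS.mk g ∈ Id S s) :
    ∃ K : ℕ → ℝ, S.Sub K ∧ Typ (S := S) (fun k ω => |f.1 k ω - g.1 k ω| ≤ K k * S.dl s k) := by
  rw [← map_sub, mk_mem_Id hs] at h
  obtain ⟨E, K, hE, hK, hh⟩ := h
  refine ⟨K, hK, hE.mono ?_⟩
  filter_upwards [hh] with k hk ω a b
  have h1 := hk ω a b
  rw [TR.ev_zero, sub_zero, TR.ev_sub] at h1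
  exact h1

variable {S : Sp} {H : RD S} {f : FR S} {w ρ s : ℝ} {Sc : Set ℝ}

theorem exists_rp (cc : CC H f 1 w ρ Sc) (lf : LitF H) (hs : s ∈ Sc) (hs1 : s ≤ 1) : Nonempty (Rp H f s) := by
  obtain ⟨t, ht, lt⟩ := lf.t
  obtain ⟨y, hy, ly⟩ := lf.y
  obtain ⟨R, hR, lR⟩ := lf.R
  obtain ⟨z, hz, lz⟩ := lf.z
  obtain ⟨x, hx, -⟩ := lf.x
  obtain ⟨F, hF, -⟩ := lf.F
  obtain ⟨v, hv, -⟩ := lf.v
  obtain ⟨t0, ht0, lt0⟩ := (cc.lt s hs).1
  obtain ⟨y0, hy0, ly0⟩ := (cc.lt s hs).2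
  obtain ⟨R0, hR0, lR0⟩ : Lit (H.K s) (f.r0 s + f.rt s * f.t0 s + f.ry s * f.y0 s) :=
    ((cc.lr s hs).1.add ((cc.lr s hs).2.1.mul (cc.lt s hs).1)).add ((cc.lr s hs).2.2.mul (cc.lt s hs).2)
  have mt : QS.mk t - QS.mk t0 ∈ Id S s := by
    rw [ht, ht0]
    exact (cc.ft s hs).1
  have my : QS.mk y - QS.mk y0 ∈ Id S s := by
    rw [hy, hy0]
    exact (cc.fy s hs).1
  have mR : QS.mk R - QS.mk R0 ∈ Id S s := by
    rw [hR, hR0]
    have h1 := cc.frR s hs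
    rw [one_mul] at h1
    have h2 : H.R - (f.r0 s + f.rt s * f.t0 s + f.ry s * f.y0 s) = (H.R - (f.r0 s + f.rt s * H.t + f.ry s * H.y)) +
      f.rt s * (H.t - f.t0 s) + f.ry s * (H.y - f.y0 s) := by ring
    rw [h2]
    exact (Id S s).add_mem ((Id S s).add_mem h1 ((Id S s).mul_mem_left _ (cc.ft s hs).1))
      ((Id S s).mul_mem_left _ (cc.fy s hs).1)
  obtain ⟨Kt, hKt, tt⟩ := close_rep hs1 mt
  obtain ⟨Ky, hKy, ty⟩ := close_rep hs1 my
  obtain ⟨KR, hKR, tR⟩ := close_rep hs1 mR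
  have hL : S.Sub (fun k => Kt k + Ky k + KR k) := (hKt.add hKy).add hKR
  refine ⟨⟨⟨(cc.bdd s hs).toInf, t, ![y, R], ![x, F], z, v, t0, ![y0, R0], fun k => Kt k + Ky k + KR k, hL⟩,
    ht, hy, hR, hx, hF, hz, hv, ht0, hy0, hR0, lt, ?_, lz, lt0, ?_, cc.bdd s hs, rfl, ?_, ?_⟩⟩
  · intro i
    fin_cases i
    · exact ly
    · exact lR
  · intro i
    fin_cases i
    · exact ly0
    · exact lR0
  · refine tt.mono ?_
    filter_upwards [hKy.1, hKR.1] with k h1 h2 ω _ h3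
    refine h3.trans ?_
    have := S.dl_pos s k
    nlinarith
  · intro i
    fin_cases i
    · refine ty.mono ?_
      filter_upwards [hKt.1, hKR.1] with k h1 h2 ω _ h3
      refine h3.trans ?_
      have := S.dl_pos s k
      show Ky k * S.dl s k ≤ (Kt k + Ky k + KR k) * S.dl s k
      nlinarith
    · refine tR.mono ?_
      filter_upwards [hKt.1, hKy.1] with k h1 h2 ω _ h3
      refine h3.trans ?_
      have := S.dl_pos s k
      show KR k * S.dl s k ≤ (Kt k + Ky k + KR k) * S.dl s k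
      nlinarith

theorem vd_two (g : Fin 2 → QS S) (r : ℝ) : vd g r = dg (g 0) r ⊔ dg (g 1) r := by
  apply le_antisymm
  · rw [vd_le]
    intro i
    fin_cases i
    · exact le_sup_left
    · exact le_sup_right
  · exact sup_le (dg_le_vd g r 0) (dg_le_vd g r 1)

namespace Rp

variable (P : Rp H f s)

theorem lts : P.D.Lt s where
  lt := by
    filter_upwards [P.lt0] with k hk ω ω' a b c
    rw [P.hV] at c
    exact hk ω ω' a b c.2 c.1
  ly := by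
    intro i
    filter_upwards [P.ly0 i] with k hk ω ω' a b c
    rw [P.hV] at c
    exact hk ω ω' a b c.2 c.1
  ft := P.ft
  fy := P.fy

theorem κ_eq : P.D.κ = H.κ s := by
  show cl P.D.V = io (H.K s)
  rw [io_eq P.bK, P.hV]

theorem qt_eq : P.D.qt = H.t := P.ht
theorem qz_eq : P.D.qz = H.z := P.hz
theorem qv_eq : P.D.qv = H.v := P.hv
theorem qy0_eq : P.D.qy 0 = H.y := P.hy
theorem qy1_eq : P.D.qy 1 = H.R := P.hR
theorem qx0_eq : P.D.qx 0 = H.x := P.hx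
theorem qx1_eq : P.D.qx 1 = H.F := P.hF

theorem qa0_eq : P.D.qa 0 = H.a := by
  show QS.mk (P.D.y 0 - P.D.t * P.D.x 0) = _
  rw [map_sub, map_mul, P.hy, P.ht, P.hx]
  rfl

theorem qa1_eq : P.D.qa 1 = H.cR := by
  show QS.mk (P.D.y 1 - P.D.t * P.D.x 1) = _
  rw [map_sub, map_mul, P.hR, P.ht, P.hF]
  rfl

theorem qb_eq : P.D.qb = H.az := by
  show QS.mk (P.D.z - P.D.t * P.D.v) = _
  rw [map_sub, map_mul, P.hz, P.ht, P.hv]
  rfl

theorem iA_eq : P.D.iA = H.L := by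
  unfold CT.iA HD0.L
  rw [vd_two, vd_two, P.qa0_eq, P.qa1_eq, P.qx0_eq, P.qx1_eq, P.qb_eq, P.qv_eq]
  apply le_antisymm <;> order

theorem iMr_eq (r : ℝ) : P.D.iMr r = H.iso r := by
  unfold CT.iMr HD0.iso
  rw [vd_two, P.qt_eq, P.qy0_eq, P.qy1_eq, sup_assoc]

theorem iMr_one : P.D.iMr 1 = H.M := P.iMr_eq 1

theorem B_eq : P.D.iMr 1 ⊔ dg P.D.qz 1 = H.B := by
  rw [P.iMr_one, P.qz_eq]
  rfl

/-- THE HYPOTHESES of the flat corner in the window `s` -/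
theorem hyp (cc : CC H f 1 w ρ Sc) (hs : s ∈ Sc) (h1 : (w + 2) * s ≤ 1) (h0 : 0 < s)
    (hx : I (dg H.x 1 ⊔ dg H.F 1) (H.κ s ⊔ H.B) ⊥ = 0) : P.D.Hyp s (w * s) ρ where
  toLt := P.lts
  hρ := cc.hρ
  time := by
    rw [P.qt_eq, P.iA_eq, cc.time]
  leakA := by
    rw [P.qt_eq, P.iA_eq, P.κ_eq]
    exact cc.leakA s hs
  T1 := by
    rw [vd_two, P.qx0_eq, P.qx1_eq, P.κ_eq, P.B_eq]
    exact hx
  full := by
    rw [P.iMr_one, P.κ_eq]
    have hs1 : s ≤ 1 := by nlinarith [cc.hw]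
    have h2 := cc.full s hs (by rw [one_mul]; exact hs1) S (Pj.id S) (fun _ _ => True) (ul_pr_typ_pos _ Typ_true)
    rw [h_restL_typ _ Typ_true, Pj.id_map, Pj.id_map] at h2
    push_cast
    linarith
  hz := by
    have hg1 : w * s ≤ 1 := by nlinarith
    rw [P.qz_eq, P.κ_eq, P.iMr_eq]
    have h2 := cc.frZ s hs
    rw [dg_eq_of_sub_mem h2 le_rfl hg1]
    have k1 : ∀ {g : QS S}, Lit (H.K s) g → dg g (w * s) ≤ H.κ s ⊔ H.iso (w * s) := fun hg =>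
      (hg.dg_le (cc.bdd s hs) hg1).trans le_sup_left
    have k2 : dg H.t (w * s) ≤ H.κ s ⊔ H.iso (w * s) := (le_sup_left.trans le_sup_left).trans le_sup_right
    have k3 : dg H.y (w * s) ≤ H.κ s ⊔ H.iso (w * s) := (le_sup_right.trans le_sup_left).trans le_sup_right
    have k4 : dg H.R (w * s) ≤ H.κ s ⊔ H.iso (w * s) := le_sup_right.trans le_sup_right
    obtain ⟨l1, l2, l3, l4⟩ := cc.lz s hs
    exact (Kn S (w * s) hg1 _).add_mem ((Kn S (w * s) hg1 _).add_mem ((Kn S (w * s) hg1 _).add_mem (k1 l1)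
      ((Kn S (w * s) hg1 _).mul_mem (k1 l2) k2)) ((Kn S (w * s) hg1 _).mul_mem (k1 l3) k3))
      ((Kn S (w * s) hg1 _).mul_mem (k1 l4) k4)
  uns := by
    intro T p E hE a b ha hab hb
    rw [P.qz_eq, P.iMr_eq]
    exact cc.uns T p E hE a b ha hab (by nlinarith)

theorem scs (cc : CC H f 1 w ρ Sc) (h1 : (w + 2) * s ≤ 1) (h0 : 0 < s) : Scs s (w * s) where
  s0 := h0
  g0 := mul_pos (by linarith [cc.hw]) h0
  hs := by linarith

end Rp

end

end Pool.Agent.Helper69.BF
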